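import Mathlib

/-! Arithmetic of quasi-symmetric 3-designs with smaller intersection number 1.
`A = k - 1`, `u = y - 1`, `l = λ`, `s = λ₂`, `w = v - 2`. -/

namespace Helper138QS

theorem no_root {a b c m l : ℤ} (ha : 0 < a) (hc : c < 0) (hm : 0 ≤ m)
    (h1 : a * m ^ 2 + b * m + c < 0) (h2 : 0 < a * (m + 1) ^ 2 + b * (m + 1) + c)
    (hl : 0 ≤ l) : a * l ^ 2 + b * l + c ≠ 0 := by
  intro h0
  rcases le_or_gt l m with h | h
  · have hid : l * (a * m ^ 2 + b * m + c) + (m - l) * c - m * (a * l ^ 2 + b * l + c)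
        = a * (l * m * (m - l)) := by ring
    rw [h0] at hid
    have h3 : 0 ≤ a * (l * m * (m - l)) :=
      mul_nonneg ha.le (mul_nonneg (mul_nonneg hl hm) (by linarith))
    have h4 : l * (a * m ^ 2 + b * m + c) ≤ 0 := mul_nonpos_of_nonneg_of_nonpos hl h1.le
    have h5 : (m - l) * c ≤ 0 := mul_nonpos_of_nonneg_of_nonpos (by linarith) hc.le
    have h6 : l * (a * m ^ 2 + b * m + c) = 0 := by linarith
    have h7 : (m - l) * c = 0 := by linarith
    have h8 : l = 0 := by
      rcases mul_eq_zero.1 h6 with h8 | h8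
      · exact h8
      · exact absurd h8 h1.ne
    subst h8
    simp at h0
    exact hc.ne h0
  · have hid : (l - m) * (a * (m + 1) ^ 2 + b * (m + 1) + c)
        = (l - m - 1) * (a * m ^ 2 + b * m + c) + (a * l ^ 2 + b * l + c)
          - a * ((l - m - 1) * (l - m)) := by ring
    rw [h0] at hid
    have h3 : 0 < (l - m) * (a * (m + 1) ^ 2 + b * (m + 1) + c) :=
      mul_pos (by linarith) h2
    have h4 : (l - m - 1) * (a * m ^ 2 + b * m + c) ≤ 0 :=
      mul_nonpos_of_nonneg_of_nonpos (by linarith) h1.le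
    have h5 : 0 ≤ a * ((l - m - 1) * (l - m)) :=
      mul_nonneg ha.le (mul_nonneg (by linarith) (by linarith))
    linarith

theorem a_pos {u A : ℤ} (hu : 4 ≤ u) (hA : u + 1 ≤ A) :
    0 < (u - 3) * A ^ 3 - (u ^ 2 - 5 * u - 2) * A ^ 2 - (2 * u + 1) * (u + 1) * A
      + u * (u + 1) := by
  obtain ⟨z, hz⟩ := Int.le.dest hu
  obtain ⟨t, ht⟩ := Int.le.dest hA
  subst hz
  subst ht
  have : ((4 + (z : ℤ)) - 3) * (4 + (z : ℤ) + 1 + (t : ℤ)) ^ 3
      - ((4 + (z : ℤ)) ^ 2 - 5 * (4 + (z : ℤ)) - 2) * (4 + (z : ℤ) + 1 + (t : ℤ)) ^ 2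
      - (2 * (4 + (z : ℤ)) + 1) * ((4 + (z : ℤ)) + 1) * (4 + (z : ℤ) + 1 + (t : ℤ))
      + (4 + (z : ℤ)) * ((4 + (z : ℤ)) + 1)
      = 70 + 90 * (t : ℤ) + 21 * (t : ℤ) ^ 2 + (t : ℤ) ^ 3 + 54 * z + 68 * z * t
        + 15 * z * (t : ℤ) ^ 2 + z * (t : ℤ) ^ 3 + 13 * (z : ℤ) ^ 2 + 15 * (z : ℤ) ^ 2 * t
        + 2 * (z : ℤ) ^ 2 * (t : ℤ) ^ 2 + (z : ℤ) ^ 3 + (z : ℤ) ^ 3 * t := by ring
  rw [this]
  positivity

theorem f2_pos {u A : ℤ} (hu : 4 ≤ u) (hA : u ^ 2 + u ≤ A) :
    0 < (u ^ 2 - 2 * u - 7) * A ^ 3 + (7 * u ^ 2 + 14 * u + 3) * A ^ 2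
      - (u ^ 4 + 5 * u ^ 3 + 9 * u ^ 2 + 7 * u + 2) * A + 2 * u * (u + 1) ^ 2 := by
  obtain ⟨z, hz⟩ := Int.le.dest hu
  obtain ⟨t, ht⟩ := Int.le.dest hA
  subst hz
  subst ht
  ring_nf
  positivity

theorem arith {A u l s w r : ℤ} (hu : 1 ≤ u) (hA : u + 1 ≤ A) (hl : 1 ≤ l) (hs : 1 ≤ s)
    (h1 : s * (A - 1) = l * w) (h2 : r * A = s * (w + 1))
    (h3 : (u - 1) * (s - 1) = (A - 1) * (l - 1))
    (h4 : (u + 1) * ((A + 1) * s - r) = (A + 1) * A * l)
    (hw : 2 * A - 1 ≤ w) :
    (A = 2 ∧ u = 1 ∧ l = 1 ∧ w = 3) ∨ (A = 6 ∧ u = 2 ∧ l = 4 ∧ w = 20) ∨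
      (A = 6 ∧ u = 2 ∧ l = 5 ∧ w = 21) := by
  have e0 : (u + 1) * s * (A ^ 2 + A - 1 - w) = A ^ 2 * (A + 1) * l := by
    linear_combination A * h4 + (u + 1) * h2
  have e1 : (u + 1) * s * (l * (A ^ 2 + A - 1) - s * (A - 1)) = A ^ 2 * (A + 1) * l ^ 2 := by
    linear_combination l * e0 - (u + 1) * s * h1
  have hS : (u - 1) * s = (A - 1) * l - (A - u) := by linear_combination h3
  have e2 : (u + 1) * ((A - 1) * l - (A - u)) * ((u - 1) * l * (A ^ 2 + A - 1)
      - ((A - 1) * l - (A - u)) * (A - 1)) = A ^ 2 * (A + 1) * l ^ 2 * (u - 1) ^ 2 := by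
    rw [← hS]
    linear_combination (u - 1) ^ 2 * e1
  have hF : ((u - 3) * A ^ 3 - (u ^ 2 - 5 * u - 2) * A ^ 2 - (2 * u + 1) * (u + 1) * A
      + u * (u + 1)) * l ^ 2
      + ((u + 1) * (A - u) * ((3 - u) * A ^ 2 - (u + 3) * A + u + 1)) * l
      + (-((u + 1) * (A - 1) * (A - u) ^ 2)) = 0 := by
    linear_combination e2
  have hc : -((u + 1) * (A - 1) * (A - u) ^ 2) < 0 := by
    have : 0 < (u + 1) * (A - 1) * (A - u) ^ 2 :=
      mul_pos (mul_pos (by linarith) (by linarith)) (pow_pos (by linarith) 2)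
    linarith
  rcases le_or_gt 4 u with h4u | h4u
  · have ha := a_pos h4u hA
    rcases eq_or_lt_of_le hA with hA1 | hA1
    · -- `A = u + 1`
      exfalso
      subst hA1
      have hlu : l = u := by
        have hFu : ((u - 3) * (u + 1) ^ 3 - (u ^ 2 - 5 * u - 2) * (u + 1) ^ 2
            - (2 * u + 1) * (u + 1) * (u + 1) + u * (u + 1)) * u ^ 2
            + ((u + 1) * ((u + 1) - u) * ((3 - u) * (u + 1) ^ 2 - (u + 3) * (u + 1) + u + 1)) * u
            + (-((u + 1) * ((u + 1) - 1) * ((u + 1) - u) ^ 2)) = 0 := by ring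
        generalize ((u - 3) * (u + 1) ^ 3 - (u ^ 2 - 5 * u - 2) * (u + 1) ^ 2
            - (2 * u + 1) * (u + 1) * (u + 1) + u * (u + 1)) = a at *
        generalize ((u + 1) * ((u + 1) - u) *
          ((3 - u) * (u + 1) ^ 2 - (u + 3) * (u + 1) + u + 1)) = b at *
        generalize (-((u + 1) * ((u + 1) - 1) * ((u + 1) - u) ^ 2)) = c at *
        have h5 : (l - u) * (a * (l + u) + b) = 0 := by linear_combination hF - hFu
        rcases mul_eq_zero.1 h5 with h6 | h6
        · linarith
        · exfalso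
          have h7 : u * (a * l) - c = 0 := by linear_combination u * h6 - hFu
          have h8 : 0 < u * (a * l) := mul_pos (by linarith) (mul_pos ha (by linarith))
          linarith
      subst hlu
      have h5 : s = l + 1 := by
        have h6 : (l - 1) * (s - 1 - l) = 0 := by linear_combination h3
        rcases mul_eq_zero.1 h6 with h7 | h7 <;> linarith
      subst h5
      have h6 : l * (w - (l + 1)) = 0 := by linear_combination -h1
      rcases mul_eq_zero.1 h6 with h7 | h7 <;> linarith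
    · exfalso
      rcases lt_or_ge A (u ^ 2 + u) with hA2 | hA2
      · refine no_root (m := u) ha hc (by linarith) ?_ ?_ (by linarith : 0 ≤ l) hF
        · have h5 : 0 < A * (A - u) * (u - 1) ^ 2 * (A - u - 1) :=
            mul_pos (mul_pos (mul_pos (by linarith) (by linarith)) (pow_pos (by linarith) 2))
              (by linarith)
          linear_combination h5
        · have h5 : 0 < (u + 1) * (A - u) * (A * (u ^ 2 + u - A) - u) := by
            refine mul_pos (mul_pos (by linarith) (by linarith)) ?_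
            have h6 : A * 1 ≤ A * (u ^ 2 + u - A) :=
              mul_le_mul_of_nonneg_left (by linarith) (by linarith)
            linarith
          linear_combination h5
      · refine no_root (m := u + 1) ha hc (by linarith) ?_ ?_ (by linarith : 0 ≤ l) hF
        · have h5 : 0 < (u + 1) * (A - u) * (A * (A - (u ^ 2 + u)) + u) := by
            refine mul_pos (mul_pos (by linarith) (by linarith)) ?_
            have h6 : 0 ≤ A * (A - (u ^ 2 + u)) := mul_nonneg (by linarith) (by linarith)
            linarith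
          linear_combination h5
        · have h5 := f2_pos h4u hA2
          linear_combination h5
  · have hu3 : u = 1 ∨ u = 2 ∨ u = 3 := by omega
    rcases hu3 with rfl | rfl | rfl
    · -- `u = 1`
      left
      have hl1 : l = 1 := by
        have h5 : (A - 1) * (l - 1) = 0 := by linear_combination -h3
        rcases mul_eq_zero.1 h5 with h6 | h6 <;> linarith
      subst hl1
      rcases eq_or_lt_of_le hA with hA1 | hA1
      · have hA2 : A = 2 := by linarith
        subst hA2
        have h5 : 2 * ((s - 2) * (s - 3)) = 0 := by linear_combination -e1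
        have h6 : (s - 2) * (s - 3) = 0 := by linarith
        refine ⟨rfl, rfl, rfl, ?_⟩
        rcases mul_eq_zero.1 h6 with h7 | h7 <;> linarith
      · exfalso
        have h5 : (2 * (A - 1) * s - (A ^ 2 + A - 1)) ^ 2
            = -A ^ 4 + 2 * A ^ 3 + A ^ 2 - 2 * A + 1 := by
          linear_combination (-2 * (A - 1)) * e1
        have h6 : 0 ≤ (2 * (A - 1) * s - (A ^ 2 + A - 1)) ^ 2 := sq_nonneg _
        rw [h5] at h6
        obtain ⟨t, ht⟩ := Int.le.dest (show (3 : ℤ) ≤ A by linarith)
        subst ht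
        have h7 : -(3 + (t : ℤ)) ^ 4 + 2 * (3 + (t : ℤ)) ^ 3 + (3 + (t : ℤ)) ^ 2
            - 2 * (3 + (t : ℤ)) + 1 = -(23 + 50 * (t : ℤ) + 35 * (t : ℤ) ^ 2
              + 10 * (t : ℤ) ^ 3 + (t : ℤ) ^ 4) := by ring
        rw [h7] at h6
        have h8 : 0 < 23 + 50 * (t : ℤ) + 35 * (t : ℤ) ^ 2
              + 10 * (t : ℤ) ^ 3 + (t : ℤ) ^ 4 := by positivity
        linarith
    · -- `u = 2`
      right
      rcases le_or_gt 7 A with hA7 | hA7
      · exfalso
        obtain ⟨t, ht⟩ := Int.le.dest hA7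
        generalize haa : ((2 - 3 : ℤ) * A ^ 3 - (2 ^ 2 - 5 * 2 - 2) * A ^ 2
            - (2 * 2 + 1) * (2 + 1) * A + 2 * (2 + 1)) = a at hF
        generalize hbb : ((2 + 1 : ℤ) * (A - 2) * ((3 - 2) * A ^ 2 - (2 + 3) * A + 2 + 1)) = b
          at hF
        generalize hcc : (-((2 + 1 : ℤ) * (A - 1) * (A - 2) ^ 2)) = c at hF hc
        have h5 : (2 * a * l + b) ^ 2 = b ^ 2 - 4 * a * c := by
          linear_combination 4 * a * hF
        have h6 : b ^ 2 - 4 * a * c
            = -(3 * (A - 2) ^ 2 * (A ^ 4 - 6 * A ^ 3 - A ^ 2 + 6 * A - 3)) := by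
          rw [← haa, ← hbb, ← hcc]; ring
        have h7 : 0 ≤ (2 * a * l + b) ^ 2 := sq_nonneg _
        rw [h5, h6] at h7
        have h8 : 0 < 3 * (A - 2) ^ 2 * (A ^ 4 - 6 * A ^ 3 - A ^ 2 + 6 * A - 3) := by
          refine mul_pos (mul_pos (by norm_num) (pow_pos (by linarith) 2)) ?_
          rw [← ht]
          ring_nf
          positivity
        linarith
      · have hA4 : A = 3 ∨ A = 4 ∨ A = 5 ∨ A = 6 := by omega
        rcases hA4 with rfl | rfl | rfl | rfl
        · exfalso
          have h5 : (l - 2) * (2 * l + 1) = 0 := by linarith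
          rcases mul_eq_zero.1 h5 with h6 | h6
          · have h7 : l = 2 := by linarith
            subst h7
            linarith
          · linarith
        · exfalso
          rcases le_or_gt l 2 with h | h
          · have : l = 1 ∨ l = 2 := by omega
            rcases this with rfl | rfl <;> norm_num at hF
          · have h5 : 3 ≤ l := h
            nlinarith
        · exfalso
          rcases le_or_gt l 2 with h | h
          · have : l = 1 ∨ l = 2 := by omega
            rcases this with rfl | rfl <;> norm_num at hF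
          · have h5 : 3 ≤ l := h
            nlinarith
        · have h5 : (l - 4) * (l - 5) = 0 := by linarith
          rcases mul_eq_zero.1 h5 with h6 | h6
          · left
            have h7 : l = 4 := by linarith
            subst h7
            refine ⟨rfl, rfl, rfl, ?_⟩
            linarith
          · right
            have h7 : l = 5 := by linarith
            subst h7
            refine ⟨rfl, rfl, rfl, ?_⟩
            linarith
    · -- `u = 3`
      exfalso
      have h5 : (A - 3) * ((2 * A - 1) * l ^ 2 - 2 * (3 * A - 2) * l - (A - 1) * (A - 3)) = 0 := by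
        linarith
      rcases mul_eq_zero.1 h5 with h6 | h6
      · linarith
      · have h7 : A * (2 * (l - 1) * (l - 2) - A) = (l - 1) * (l - 3) := by linarith
        rcases le_or_gt 4 l with h4l | h4l
        · have h8 : 0 < (l - 1) * (l - 3) := mul_pos (by linarith) (by linarith)
          rw [← h7] at h8
          have h9 : 0 < 2 * (l - 1) * (l - 2) - A := 
            (mul_pos_iff_of_pos_left (show (0 : ℤ) < A by linarith)).1 h8
          have h10 : 0 ≤ (A - 1) * ((2 * (l - 1) * (l - 2) - A) - 1) :=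
            mul_nonneg (by linarith) (by linarith)
          have h11 : 0 < (l - 1) * (l - 1) := mul_pos (by linarith) (by linarith)
          nlinarith
        · have : l = 1 ∨ l = 2 ∨ l = 3 := by omega
          rcases this with rfl | rfl | rfl
          · nlinarith
          · nlinarith
          · have h8 : A * (A - 4) = 0 := by linarith
            rcases mul_eq_zero.1 h8 with h9 | h9
            · linarith
            · have h10 : A = 4 := by linarith
              subst h10
              linarith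

end Helper138QS
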