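import Mathlib

/-! Arithmetic of quasi-symmetric 3-designs with smaller intersection number 2. -/

namespace Helper138QS

theorem root_lt {a b c m l : ℤ} (ha : 0 < a) (hc : c < 0) (hm : 0 ≤ m)
    (h : 0 < a * m ^ 2 + b * m + c) (h0 : a * l ^ 2 + b * l + c = 0) : l < m := by
  by_contra hcon
  push Not at hcon
  have hid : l * (a * m ^ 2 + b * m + c) = m * (a * l ^ 2 + b * l + c) + (l - m) * c
      - a * (l * m * (l - m)) := by ring
  rw [h0] at hid
  have h1 : (l - m) * c ≤ 0 := mul_nonpos_of_nonneg_of_nonpos (by linarith) hc.le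
  have h2 : 0 ≤ a * (l * m * (l - m)) :=
    mul_nonneg ha.le (mul_nonneg (mul_nonneg (by linarith) hm) (by linarith))
  have h3 : l * (a * m ^ 2 + b * m + c) ≤ 0 := by linarith
  have h4 : 0 ≤ l := by linarith
  rcases eq_or_lt_of_le h4 with h5 | h5
  · subst h5
    simp at h0
    exact hc.ne h0
  · have := mul_pos h5 h
    linarith

theorem lt_root {a b c m l : ℤ} (ha : 0 < a) (hc : c < 0) (hl : 1 ≤ l)
    (h : a * m ^ 2 + b * m + c < 0) (h0 : a * l ^ 2 + b * l + c = 0) : m < l := by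
  by_contra hcon
  push Not at hcon
  have hid : l * (a * m ^ 2 + b * m + c) + (m - l) * c - m * (a * l ^ 2 + b * l + c)
      = a * (l * m * (m - l)) := by ring
  rw [h0] at hid
  have h1 : (m - l) * c ≤ 0 := mul_nonpos_of_nonneg_of_nonpos (by linarith) hc.le
  have h2 : 0 ≤ a * (l * m * (m - l)) :=
    mul_nonneg ha.le (mul_nonneg (mul_nonneg (by linarith) (by linarith)) (by linarith))
  have h3 : 0 < l * (-(a * m ^ 2 + b * m + c)) := mul_pos (by linarith) (by linarith)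
  linarith

theorem cubic_trap {c0 c1 c2 c3 T t : ℤ} (h3 : c3 ≤ 0) (h2 : c2 + c3 * T ≤ 0) (h0 : 0 < c0)
    (hT : 0 < c0 + T * (c1 + T * (c2 + T * c3)))
    (g0 : c0 + (T + 1) * (c1 + (T + 1) * (c2 + (T + 1) * c3)) < 0)
    (g1 : c1 + 2 * c2 * (T + 1) + 3 * c3 * (T + 1) ^ 2 ≤ 0)
    (g2 : c2 + 3 * c3 * (T + 1) ≤ 0) (ht : 0 ≤ t)
    (he : c0 + t * (c1 + t * (c2 + t * c3)) = 0) : False := by
  rcases le_or_gt t T with h | h
  · have e1 : 0 ≤ (-c3) * (t * t * (T - t)) :=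
      mul_nonneg (by linarith) (mul_nonneg (mul_nonneg ht ht) (by linarith))
    have e2 : 0 ≤ (-(c2 + c3 * T)) * (t * (T - t)) :=
      mul_nonneg (by linarith) (mul_nonneg ht (by linarith))
    have e3 : c0 + (c1 + (c2 + c3 * T) * T) * t ≤ 0 := by linarith
    rcases le_or_gt 0 (c1 + (c2 + c3 * T) * T) with h4 | h4
    · have := mul_nonneg h4 ht
      linarith
    · have e4 : 0 ≤ (-(c1 + (c2 + c3 * T) * T)) * (T - t) :=
        mul_nonneg (by linarith) (by linarith)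
      linarith
  · obtain ⟨s, hs⟩ := Int.le.dest (show T + 1 ≤ t from h)
    subst hs
    have hs0 : (0 : ℤ) ≤ (s : ℤ) := Int.natCast_nonneg s
    have e1 : 0 ≤ (-(c1 + 2 * c2 * (T + 1) + 3 * c3 * (T + 1) ^ 2)) * (s : ℤ) :=
      mul_nonneg (by linarith) hs0
    have e2 : 0 ≤ (-(c2 + 3 * c3 * (T + 1))) * ((s : ℤ) * s) :=
      mul_nonneg (by linarith) (mul_nonneg hs0 hs0)
    have e3 : 0 ≤ (-c3) * ((s : ℤ) * s * s) :=
      mul_nonneg (by linarith) (mul_nonneg (mul_nonneg hs0 hs0) hs0)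
    have hid : c0 + (T + 1 + (s : ℤ)) * (c1 + (T + 1 + (s : ℤ)) * (c2 + (T + 1 + (s : ℤ)) * c3))
        = (c0 + (T + 1) * (c1 + (T + 1) * (c2 + (T + 1) * c3)))
          + (c1 + 2 * c2 * (T + 1) + 3 * c3 * (T + 1) ^ 2) * (s : ℤ)
          + (c2 + 3 * c3 * (T + 1)) * ((s : ℤ) * s) + c3 * ((s : ℤ) * s * s) := by ring
    linarith

theorem nosq {X D s : ℤ} (h : X ^ 2 = D) (hs : 0 ≤ s) (h1 : s ^ 2 < D) (h2 : D < (s + 1) ^ 2) :
    False := by
  rw [← h] at h1 h2
  have h3 := abs_lt_of_sq_lt_sq h2 (by linarith)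
  have h4 : s < |X| := lt_of_pow_lt_pow_left₀ 2 (abs_nonneg X) (by rw [sq_abs]; exact h1)
  omega

/-- The quadratic in `l` for smaller intersection number 2. -/
def A2 (k y : ℤ) : ℤ := (k - 1) * ((y ^ 2 - 6 * y + 1) * k ^ 2 + 16 * y * k - 4 * y ^ 2 - 12 * y)

def B2 (k y : ℤ) : ℤ :=
  -(k ^ 3 * (y ^ 3 - 5 * y ^ 2 - 5 * y + 1) + k ^ 2 * (-3 * y ^ 3 + 29 * y ^ 2 + 15 * y - 1)
    - k * (52 * y ^ 2 + 12 * y) + 4 * y ^ 3 + 28 * y ^ 2)

def C2 (k y : ℤ) : ℤ := -(4 * y ^ 2 * (k - 2) ^ 2 * (k - y))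

theorem disc2 {k y l : ℤ} (h : A2 k y * l ^ 2 + B2 k y * l + C2 k y = 0) :
    (2 * A2 k y * l + B2 k y) ^ 2 = B2 k y ^ 2 - 4 * A2 k y * C2 k y := by
  linear_combination 4 * A2 k y * h

theorem neg3 {k l : ℤ} (hk : 5 ≤ k) (h : A2 k 3 * l ^ 2 + B2 k 3 * l + C2 k 3 = 0) :
    False := by
  have h1 := disc2 h
  obtain ⟨t, ht⟩ := Int.le.dest hk
  subst ht
  have h2 : 0 < -(B2 (5 + (t : ℤ)) 3 ^ 2 - 4 * A2 (5 + (t : ℤ)) 3 * C2 (5 + (t : ℤ)) 3) := by
    unfold A2 B2 C2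
    ring_nf
    positivity
  have h3 := sq_nonneg (2 * A2 (5 + (t : ℤ)) 3 * l + B2 (5 + (t : ℤ)) 3)
  rw [h1] at h3
  linarith

theorem neg4 {k l : ℤ} (hk : 8 ≤ k) (h : A2 k 4 * l ^ 2 + B2 k 4 * l + C2 k 4 = 0) :
    False := by
  have h1 := disc2 h
  obtain ⟨t, ht⟩ := Int.le.dest hk
  subst ht
  have h2 : 0 < -(B2 (8 + (t : ℤ)) 4 ^ 2 - 4 * A2 (8 + (t : ℤ)) 4 * C2 (8 + (t : ℤ)) 4) := by
    unfold A2 B2 C2
    ring_nf
    positivity
  have h3 := sq_nonneg (2 * A2 (8 + (t : ℤ)) 4 * l + B2 (8 + (t : ℤ)) 4)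
  rw [h1] at h3
  linarith

theorem neg5 {k l : ℤ} (hk : 19 ≤ k) (h : A2 k 5 * l ^ 2 + B2 k 5 * l + C2 k 5 = 0) :
    False := by
  have h1 := disc2 h
  obtain ⟨t, ht⟩ := Int.le.dest hk
  subst ht
  have h2 : 0 < -(B2 (19 + (t : ℤ)) 5 ^ 2 - 4 * A2 (19 + (t : ℤ)) 5 * C2 (19 + (t : ℤ)) 5) := by
    unfold A2 B2 C2
    ring_nf
    positivity
  have h3 := sq_nonneg (2 * A2 (19 + (t : ℤ)) 5 * l + B2 (19 + (t : ℤ)) 5)
  rw [h1] at h3
  linarith

theorem case5 {k l : ℤ} (h7 : 7 ≤ k) (hk : k ≤ 18)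
    (h : A2 k 5 * l ^ 2 + B2 k 5 * l + C2 k 5 = 0) : False := by
  have h1 := disc2 h
  interval_cases k
  · exact nosq h1 (s := 6505) (by norm_num) (by norm_num [A2, B2, C2]) (by norm_num [A2, B2, C2])
  · exact nosq h1 (s := 9718) (by norm_num) (by norm_num [A2, B2, C2]) (by norm_num [A2, B2, C2])
  · exact nosq h1 (s := 13481) (by norm_num) (by norm_num [A2, B2, C2]) (by norm_num [A2, B2, C2])
  · exact nosq h1 (s := 17677) (by norm_num) (by norm_num [A2, B2, C2]) (by norm_num [A2, B2, C2])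
  · exact nosq h1 (s := 22139) (by norm_num) (by norm_num [A2, B2, C2]) (by norm_num [A2, B2, C2])
  · exact nosq h1 (s := 26642) (by norm_num) (by norm_num [A2, B2, C2]) (by norm_num [A2, B2, C2])
  · exact nosq h1 (s := 30884) (by norm_num) (by norm_num [A2, B2, C2]) (by norm_num [A2, B2, C2])
  · exact nosq h1 (s := 34444) (by norm_num) (by norm_num [A2, B2, C2]) (by norm_num [A2, B2, C2])
  · exact nosq h1 (s := 36715) (by norm_num) (by norm_num [A2, B2, C2]) (by norm_num [A2, B2, C2])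
  · norm_num [A2, B2, C2] at h
    have h5 : 18 * (l * l) + 129 * l = 2695 := by linarith
    omega
  · exact nosq h1 (s := 32549) (by norm_num) (by norm_num [A2, B2, C2]) (by norm_num [A2, B2, C2])
  · exact nosq h1 (s := 17529) (by norm_num) (by norm_num [A2, B2, C2]) (by norm_num [A2, B2, C2])

theorem case6 {l : ℤ} (h : A2 6 4 * l ^ 2 + B2 6 4 * l + C2 6 4 = 0) : False := by
  have h1 := disc2 h
  exact nosq h1 (s := 931) (by norm_num) (by norm_num [A2, B2, C2]) (by norm_num [A2, B2, C2])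

theorem up6 {k l : ℤ} (hk : 8 ≤ k) (h1 : 8 ≤ l) (h2 : l ≤ 15)
    (h : A2 k 6 * l ^ 2 + B2 k 6 * l + C2 k 6 = 0) : False := by
  obtain ⟨t, ht⟩ := Int.le.dest hk
  subst ht
  unfold A2 B2 C2 at h
  interval_cases l
  · refine cubic_trap (c0 := 98048) (c1 := 23680) (c2 := 376) (c3 := -136) (T := 16) (t := (t : ℤ)) (by norm_num)
      (by norm_num) (by norm_num) (by norm_num) (by norm_num) (by norm_num) (by norm_num)
      (Int.natCast_nonneg t) ?_
    linear_combination h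
  · refine cubic_trap (c0 := 150408) (c1 := 40320) (c2 := 1746) (c3 := -126) (T := 27) (t := (t : ℤ)) (by norm_num)
      (by norm_num) (by norm_num) (by norm_num) (by norm_num) (by norm_num) (by norm_num)
      (Int.natCast_nonneg t) ?_
    linear_combination h
  · refine cubic_trap (c0 := 211392) (c1 := 59760) (c2 := 3354) (c3 := -114) (T := 42) (t := (t : ℤ)) (by norm_num)
      (by norm_num) (by norm_num) (by norm_num) (by norm_num) (by norm_num) (by norm_num)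
      (Int.natCast_nonneg t) ?_
    linear_combination h
  · refine cubic_trap (c0 := 281000) (c1 := 82000) (c2 := 5200) (c3 := -100) (T := 65) (t := (t : ℤ)) (by norm_num)
      (by norm_num) (by norm_num) (by norm_num) (by norm_num) (by norm_num) (by norm_num)
      (Int.natCast_nonneg t) ?_
    linear_combination h
  · refine cubic_trap (c0 := 359232) (c1 := 107040) (c2 := 7284) (c3 := -84) (T := 99) (t := (t : ℤ)) (by norm_num)
      (by norm_num) (by norm_num) (by norm_num) (by norm_num) (by norm_num) (by norm_num)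
      (Int.natCast_nonneg t) ?_
    linear_combination h
  · refine cubic_trap (c0 := 446088) (c1 := 134880) (c2 := 9606) (c3 := -66) (T := 158) (t := (t : ℤ)) (by norm_num)
      (by norm_num) (by norm_num) (by norm_num) (by norm_num) (by norm_num) (by norm_num)
      (Int.natCast_nonneg t) ?_
    linear_combination h
  · refine cubic_trap (c0 := 541568) (c1 := 165520) (c2 := 12166) (c3 := -46) (T := 277) (t := (t : ℤ)) (by norm_num)
      (by norm_num) (by norm_num) (by norm_num) (by norm_num) (by norm_num) (by norm_num)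
      (Int.natCast_nonneg t) ?_
    linear_combination h
  · refine cubic_trap (c0 := 645672) (c1 := 198960) (c2 := 14964) (c3 := -24) (T := 636) (t := (t : ℤ)) (by norm_num)
      (by norm_num) (by norm_num) (by norm_num) (by norm_num) (by norm_num) (by norm_num)
      (Int.natCast_nonneg t) ?_
    linear_combination h

theorem up7 {k l : ℤ} (hk : 9 ≤ k) (h1 : 9 ≤ l) (h2 : l ≤ 10)
    (h : A2 k 7 * l ^ 2 + B2 k 7 * l + C2 k 7 = 0) : False := by
  obtain ⟨t, ht⟩ := Int.le.dest hk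
  subst ht
  unfold A2 B2 C2 at h
  interval_cases l
  · refine cubic_trap (c0 := 279448) (c1 := 65620) (c2 := 2768) (c3 := -124) (T := 37) (t := (t : ℤ)) (by norm_num)
      (by norm_num) (by norm_num) (by norm_num) (by norm_num) (by norm_num) (by norm_num)
      (Int.natCast_nonneg t) ?_
    linear_combination h
  · refine cubic_trap (c0 := 422712) (c1 := 108828) (c2 := 6624) (c3 := -36) (T := 199) (t := (t : ℤ)) (by norm_num)
      (by norm_num) (by norm_num) (by norm_num) (by norm_num) (by norm_num) (by norm_num)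
      (Int.natCast_nonneg t) ?_
    linear_combination h

theorem up8 {k l : ℤ} (hk : 10 ≤ k) (h1 : 10 ≤ l) (h2 : l ≤ 10)
    (h : A2 k 8 * l ^ 2 + B2 k 8 * l + C2 k 8 = 0) : False := by
  obtain ⟨t, ht⟩ := Int.le.dest hk
  subst ht
  unfold A2 B2 C2 at h
  interval_cases l
  · refine cubic_trap (c0 := 667432) (c1 := 146864) (c2 := 7202) (c3 := -86) (T := 101) (t := (t : ℤ)) (by norm_num)
      (by norm_num) (by norm_num) (by norm_num) (by norm_num) (by norm_num) (by norm_num)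
      (Int.natCast_nonneg t) ?_
    linear_combination h

theorem up9 {k l : ℤ} (hk : 11 ≤ k) (h1 : 11 ≤ l) (h2 : l ≤ 11)
    (h : A2 k 9 * l ^ 2 + B2 k 9 * l + C2 k 9 = 0) : False := by
  obtain ⟨t, ht⟩ := Int.le.dest hk
  subst ht
  unfold A2 B2 C2 at h
  interval_cases l
  · refine cubic_trap (c0 := 1413152) (c1 := 288880) (c2 := 14464) (c3 := -16) (T := 923) (t := (t : ℤ)) (by norm_num)
      (by norm_num) (by norm_num) (by norm_num) (by norm_num) (by norm_num) (by norm_num)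
      (Int.natCast_nonneg t) ?_
    linear_combination h

theorem A2_pos {k y : ℤ} (hy : 6 ≤ y) (hk : y + 2 ≤ k) : 0 < A2 k y := by
  obtain ⟨z, hz⟩ := Int.le.dest hy
  obtain ⟨t, ht⟩ := Int.le.dest hk
  subst hz
  subst ht
  unfold A2
  ring_nf
  positivity

theorem C2_neg {k y : ℤ} (hy : 3 ≤ y) (hk : y + 2 ≤ k) : C2 k y < 0 := by
  unfold C2
  have : 0 < 4 * y ^ 2 * (k - 2) ^ 2 * (k - y) :=
    mul_pos (mul_pos (mul_pos (by norm_num) (pow_pos (by linarith) 2)) (pow_pos (by linarith) 2))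
      (by linarith)
  linarith

theorem G0 {k y : ℤ} (hy : 6 ≤ y) (hk : y + 2 ≤ k) :
    A2 k y * (y - 1) ^ 2 + B2 k y * (y - 1) + C2 k y < 0 := by
  have h1 : 0 < (k - y - 1) * (k ^ 2 * (y ^ 3 - 5 * y ^ 2 + 7 * y - 1)
      - 2 * k * (y ^ 3 - 5 * y ^ 2 + 7 * y) - 2 * y ^ 2 + 6 * y) := by
    refine mul_pos (by linarith) ?_
    obtain ⟨z, hz⟩ := Int.le.dest hy
    obtain ⟨t, ht⟩ := Int.le.dest hk
    subst hz
    subst ht
    ring_nf
    positivity
  unfold A2 B2 C2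
  linear_combination 2 * h1

theorem G1id (k y : ℤ) : A2 k y * y ^ 2 + B2 k y * y + C2 k y
    = -(y * (y - 1) ^ 2 * k * (k * (k - 1) - 2 * y * (k - 2))) := by
  unfold A2 B2 C2
  ring

theorem G1pos {k y : ℤ} (hy : 6 ≤ y) (hk : y + 2 ≤ k) (h : k ≤ 2 * y - 2) :
    0 < A2 k y * y ^ 2 + B2 k y * y + C2 k y := by
  rw [G1id]
  have h1 : 0 < y * (y - 1) ^ 2 * k * (2 * y * (k - 2) - k * (k - 1)) := by
    refine mul_pos (mul_pos (mul_pos (by linarith) (pow_pos (by linarith) 2)) (by linarith)) ?_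
    have h2 := mul_nonneg (show 0 ≤ k - (y + 2) by linarith) (show 0 ≤ 2 * y - 2 - k by linarith)
    nlinarith
  linarith

theorem G1neg {k y : ℤ} (hy : 6 ≤ y) (h : 2 * y - 1 ≤ k) :
    A2 k y * y ^ 2 + B2 k y * y + C2 k y < 0 := by
  rw [G1id]
  have h1 : 0 < y * (y - 1) ^ 2 * k * (k * (k - 1) - 2 * y * (k - 2)) := by
    refine mul_pos (mul_pos (mul_pos (by linarith) (pow_pos (by linarith) 2)) (by linarith)) ?_
    obtain ⟨t, ht⟩ := Int.le.dest h
    obtain ⟨z, hz⟩ := Int.le.dest hy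
    subst ht
    subst hz
    ring_nf
    positivity
  linarith

theorem G2id (k y : ℤ) : A2 k y * (y + 1) ^ 2 + B2 k y * (y + 1) + C2 k y
    = -(2 * y * (k * (2 * y * k ^ 2 - (y ^ 3 - y ^ 2 + 7 * y + 3) * k + 2 * y ^ 3 + 6 * y + 8)
      - (2 * y ^ 2 + 6))) := by
  unfold A2 B2 C2
  ring

theorem G2pos {k y Y : ℤ} (hy : 6 ≤ y) (hY : 2 * Y = y ^ 2 - y) (h : 2 * y - 1 ≤ k)
    (hk : k ≤ Y + 1) : 0 < A2 k y * (y + 1) ^ 2 + B2 k y * (y + 1) + C2 k y := by
  rw [G2id]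
  have h1 : 2 * y * k ^ 2 - (y ^ 3 - y ^ 2 + 7 * y + 3) * k + 2 * y ^ 3 + 6 * y + 8 < 0 := by
    have e1 : 0 ≤ 2 * y * ((k - (2 * y - 1)) * (Y + 1 - k)) :=
      mul_nonneg (by linarith) (mul_nonneg (by linarith) (by linarith))
    have e2 : 2 * y * ((k - (2 * y - 1)) * (Y + 1 - k))
        = -(2 * y * k ^ 2) + 4 * y ^ 2 * k + y * (2 * Y) * k - (2 * y - 1) * (y * (2 * Y))
          - 2 * y * (2 * y - 1) := by ring
    rw [e2, hY] at e1
    have e3 : k * (4 * y ^ 2 - 7 * y - 3) ≤ (Y + 1) * (4 * y ^ 2 - 7 * y - 3) :=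
      mul_le_mul_of_nonneg_right hk (by nlinarith)
    have e4 : 2 * ((Y + 1) * (4 * y ^ 2 - 7 * y - 3))
        = (y ^ 2 - y + 2) * (4 * y ^ 2 - 7 * y - 3) := by
      linear_combination (4 * y ^ 2 - 7 * y - 3) * hY
    have e5 : 0 < y ^ 3 - 2 * y ^ 2 - 5 * y - 10 := by
      obtain ⟨z, hz⟩ := Int.le.dest hy
      subst hz
      ring_nf
      positivity
    linarith
  have h2 : k * (2 * y * k ^ 2 - (y ^ 3 - y ^ 2 + 7 * y + 3) * k + 2 * y ^ 3 + 6 * y + 8) < 0 :=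
    mul_neg_of_pos_of_neg (by linarith) h1
  have h3 : 0 < 2 * y * (-(k * (2 * y * k ^ 2 - (y ^ 3 - y ^ 2 + 7 * y + 3) * k
      + 2 * y ^ 3 + 6 * y + 8)) + (2 * y ^ 2 + 6)) :=
    mul_pos (by linarith) (by nlinarith)
  linarith

theorem G2neg {k y Y : ℤ} (hy : 6 ≤ y) (hY : 2 * Y = y ^ 2 - y) (hk : Y + 2 ≤ k) :
    A2 k y * (y + 1) ^ 2 + B2 k y * (y + 1) + C2 k y < 0 := by
  rw [G2id]
  have hYy : y ≤ Y := by nlinarith
  have h1 : 2 * y ^ 2 + 6 <
      2 * y * k ^ 2 - (y ^ 3 - y ^ 2 + 7 * y + 3) * k + 2 * y ^ 3 + 6 * y + 8 := by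
    have e1 : 0 ≤ (k - (Y + 2)) * (2 * y * (k + Y + 2) - (y ^ 3 - y ^ 2 + 7 * y + 3)) := by
      refine mul_nonneg (by linarith) ?_
      have e2 : 2 * y * (Y + 2 + Y + 2) ≤ 2 * y * (k + Y + 2) :=
        mul_le_mul_of_nonneg_left (by linarith) (by linarith)
      have e3 : 2 * y * (Y + 2 + Y + 2) = 2 * (y ^ 3 - y ^ 2) + 8 * y := by
        linear_combination 2 * y * hY
      have e4 : 0 < y ^ 3 - y ^ 2 + y - 3 := by
        obtain ⟨z, hz⟩ := Int.le.dest hy
        subst hz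
        ring_nf
        positivity
      linarith
    have e5 : 2 * (2 * y * (Y + 2) ^ 2 - (y ^ 3 - y ^ 2 + 7 * y + 3) * (Y + 2)
        + 2 * y ^ 3 + 6 * y + 8) = y ^ 3 + 3 * y + 4 := by
      have e6 : Y = (y ^ 2 - y) / 2 := by omega
      have e7 : 2 * (2 * (2 * y * (Y + 2) ^ 2 - (y ^ 3 - y ^ 2 + 7 * y + 3) * (Y + 2)
        + 2 * y ^ 3 + 6 * y + 8)) = 2 * (y ^ 3 + 3 * y + 4) := by
        linear_combination (2 * y * (2 * Y + (y ^ 2 - y)) + 16 * y
          - 2 * (y ^ 3 - y ^ 2 + 7 * y + 3)) * hY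
      linarith
    have e8 : 0 < y ^ 3 - 4 * y ^ 2 + 3 * y - 8 := by
      obtain ⟨z, hz⟩ := Int.le.dest hy
      subst hz
      ring_nf
      positivity
    linarith
  have h2 : 2 * y ^ 2 + 6 < k * (2 * y * k ^ 2 - (y ^ 3 - y ^ 2 + 7 * y + 3) * k
      + 2 * y ^ 3 + 6 * y + 8) := by
    have e1 := mul_le_mul_of_nonneg_right (show (1 : ℤ) ≤ k by linarith)
      (show 0 ≤ 2 * y * k ^ 2 - (y ^ 3 - y ^ 2 + 7 * y + 3) * k + 2 * y ^ 3 + 6 * y + 8 by
        nlinarith)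
    linarith
  have h3 : 0 < 2 * y * (k * (2 * y * k ^ 2 - (y ^ 3 - y ^ 2 + 7 * y + 3) * k
      + 2 * y ^ 3 + 6 * y + 8) - (2 * y ^ 2 + 6)) := mul_pos (by linarith) (by linarith)
  linarith

theorem G3pos {k y : ℤ} (hy : 10 ≤ y) (hk : y + 2 ≤ k) :
    0 < A2 k y * (y + 2) ^ 2 + B2 k y * (y + 2) + C2 k y := by
  obtain ⟨z, hz⟩ := Int.le.dest hy
  obtain ⟨t, ht⟩ := Int.le.dest hk
  subst hz
  subst ht
  unfold A2 B2 C2
  ring_nf
  positivity

theorem top {k y L : ℤ} (hL : (y = 6 ∧ L = 16) ∨ (y = 7 ∧ L = 11) ∨ (y = 8 ∧ L = 11) ∨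
    (y = 9 ∧ L = 12)) (hk : y + 2 ≤ k) : 0 < A2 k y * L ^ 2 + B2 k y * L + C2 k y := by
  rcases hL with ⟨rfl, rfl⟩ | ⟨rfl, rfl⟩ | ⟨rfl, rfl⟩ | ⟨rfl, rfl⟩ <;>
  · obtain ⟨t, ht⟩ := Int.le.dest hk
    subst ht
    unfold A2 B2 C2
    ring_nf
    positivity

/-- The only solution of the quadratic with `k ≥ y + 2`. -/
theorem quad2 {k y l : ℤ} (hy : 3 ≤ y) (hk : y + 2 ≤ k) (hl : 1 ≤ l)
    (h : A2 k y * l ^ 2 + B2 k y * l + C2 k y = 0) : k = 7 ∧ y = 4 ∧ l = 25 := by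
  rcases le_or_gt 6 y with h6 | h6
  · exfalso
    have hA := A2_pos h6 hk
    have hC := C2_neg hy hk
    have r0 := lt_root hA hC hl (G0 h6 hk) h
    rcases le_or_gt k (2 * y - 2) with hk1 | hk1
    · have := root_lt hA hC (by linarith) (G1pos h6 hk hk1) h
      omega
    have hk1' : 2 * y - 1 ≤ k := by omega
    have r1 := lt_root hA hC hl (G1neg h6 hk1') h
    obtain ⟨Y, hY⟩ : ∃ Y : ℤ, 2 * Y = y ^ 2 - y := by
      have : Even (y ^ 2 - y) := by
        have h7 : y ^ 2 - y = y * (y - 1) := by ring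
        rw [h7]
        exact Int.even_mul_pred_self y
      obtain ⟨Y, hY⟩ := this
      exact ⟨Y, by linarith⟩
    rcases le_or_gt k (Y + 1) with hk2 | hk2
    · have := root_lt hA hC (by linarith) (G2pos h6 hY hk1' hk2) h
      omega
    have r2 := lt_root hA hC hl (G2neg h6 hY (by omega)) h
    rcases le_or_gt 10 y with h10 | h10
    · have := root_lt hA hC (by linarith) (G3pos h10 hk) h
      omega
    · have : y = 6 ∨ y = 7 ∨ y = 8 ∨ y = 9 := by omega
      rcases this with rfl | rfl | rfl | rfl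
      · have := root_lt hA hC (by norm_num) (top (L := 16) (by norm_num) hk) h
        exact up6 hk (by omega) (by omega) h
      · have := root_lt hA hC (by norm_num) (top (L := 11) (by norm_num) hk) h
        exact up7 hk (by omega) (by omega) h
      · have := root_lt hA hC (by norm_num) (top (L := 11) (by norm_num) hk) h
        exact up8 hk (by omega) (by omega) h
      · have := root_lt hA hC (by norm_num) (top (L := 12) (by norm_num) hk) h
        exact up9 hk (by omega) (by omega) h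
  · have : y = 3 ∨ y = 4 ∨ y = 5 := by omega
    rcases this with rfl | rfl | rfl
    · exact (neg3 (by linarith) h).elim
    · rcases le_or_gt 8 k with h8 | h8
      · exact (neg4 h8 h).elim
      · have : k = 6 ∨ k = 7 := by omega
        rcases this with rfl | rfl
        · exact (case6 h).elim
        · refine ⟨rfl, rfl, ?_⟩
          norm_num [A2, B2, C2] at h
          have h5 : (l - 25) * (7 * l - 32) = 0 := by linarith
          rcases mul_eq_zero.1 h5 with h7 | h7 <;> omega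
    · rcases le_or_gt 19 k with h8 | h8
      · exact (neg5 h8 h).elim
      · exact (case5 (by omega) (by omega) h).elim

end Helper138QS
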