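import Pool.Agent.Helper138_QS.UDef

namespace Helper138QS

set_option maxRecDepth 100000 in
theorem u0b {x z : ℤ} (hx : 4 ≤ x) (hz : x ^ 2 ≤ z) :
    AU x (x + z) (x + 2 * z) * (2 * (x + z + x - 1) - x) ^ 2
      + (BU x (x + z) (x + 2 * z) * 2) * (2 * (x + z + x - 1) - x)
      + CU x (x + z) (x + 2 * z) * 2 ^ 2 < 0 := by
  obtain ⟨a, ha⟩ := Int.le.dest hx
  obtain ⟨b, hb⟩ := Int.le.dest hz
  subst hb
  subst ha
  rw [← neg_pos]
  unfold AU BU CU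
  ring_nf
  positivity

set_option maxRecDepth 100000 in
/-- the case `x = 3`, `m = 2` -/
theorem u0c {z : ℤ} (hz : 9 ≤ z) :
    AU 3 (3 + z) (3 + 2 * z) * (3 + z) ^ 2 + BU 3 (3 + z) (3 + 2 * z) * (3 + z)
      + CU 3 (3 + z) (3 + 2 * z) < 0 := by
  obtain ⟨b, hb⟩ := Int.le.dest hz
  subst hb
  rw [← neg_pos]
  unfold AU BU CU
  ring_nf
  positivity

set_option maxRecDepth 100000 in
theorem u0d {z : ℤ} (hz : 9 ≤ z) :
    0 < AU 3 (3 + z) (3 + 2 * z) * (3 + z + 1) ^ 2 + BU 3 (3 + z) (3 + 2 * z) * (3 + z + 1)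
      + CU 3 (3 + z) (3 + 2 * z) := by
  obtain ⟨b, hb⟩ := Int.le.dest hz
  subst hb
  unfold AU BU CU
  ring_nf
  positivity

set_option maxRecDepth 100000 in
theorem uA {x z m : ℤ} (hx : 2 ≤ x) (hm : 2 ≤ m) (hz : x ^ 2 ≤ z) :
    0 < AU x (x + z) (x + m * z) := by
  obtain ⟨a, ha⟩ := Int.le.dest hx
  obtain ⟨c, hc⟩ := Int.le.dest hm
  obtain ⟨b, hb⟩ := Int.le.dest hz
  subst hb
  subst hc
  subst ha
  unfold AU
  ring_nf
  positivity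

set_option maxRecDepth 100000 in
theorem uC {x z m : ℤ} (hx : 2 ≤ x) (hm : 2 ≤ m) (hz : x ^ 2 ≤ z) :
    CU x (x + z) (x + m * z) < 0 := by
  obtain ⟨a, ha⟩ := Int.le.dest hx
  obtain ⟨c, hc⟩ := Int.le.dest hm
  obtain ⟨b, hb⟩ := Int.le.dest hz
  subst hb
  subst hc
  subst ha
  rw [← neg_pos]
  unfold CU
  ring_nf
  positivity

end Helper138QS
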