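import Pool.Agent.Helper138_QS.UDef

namespace Helper138QS

set_option maxRecDepth 100000 in
/-- `x m ≤ z + 2 x - 1` -/
theorem u2pos {x z m : ℤ} (hx : 2 ≤ x) (hm : 3 ≤ m) (hz : x * m - 2 * x + 1 ≤ z) :
    0 < AU x (x + z) (x + m * z) * (x + z + x - 1) ^ 2
      + BU x (x + z) (x + m * z) * (x + z + x - 1) + CU x (x + z) (x + m * z) := by
  obtain ⟨a, ha⟩ := Int.le.dest hx
  obtain ⟨c, hc⟩ := Int.le.dest hm
  obtain ⟨b, hb⟩ := Int.le.dest hz
  subst hb
  subst hc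
  subst ha
  unfold AU BU CU
  ring_nf
  positivity

end Helper138QS
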