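import Pool.Agent.Helper138_QS.UDef

namespace Helper138QS

set_option maxRecDepth 100000 in
/-- `x m ≥ z + 2 x` -/
theorem u2neg {x z m : ℤ} (hx : 2 ≤ x) (hz : 2 * x ≤ z) (hm : z + 2 * x ≤ x * m) :
    AU x (x + z) (x + m * z) * (x + z + x - 1) ^ 2
      + BU x (x + z) (x + m * z) * (x + z + x - 1) + CU x (x + z) (x + m * z) < 0 := by
  obtain ⟨a, ha⟩ := Int.le.dest hx
  obtain ⟨c, hc⟩ := Int.le.dest hm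
  obtain ⟨b, hb⟩ := Int.le.dest hz
  have hx3 : 0 < x ^ 3 := by positivity
  have key : 0 < x ^ 3 * -(AU x (x + z) (x + m * z) * (x + z + x - 1) ^ 2
      + BU x (x + z) (x + m * z) * (x + z + x - 1) + CU x (x + z) (x + m * z)) := by
    have e1 : x ^ 3 * -(AU x (x + z) (x + m * z) * (x + z + x - 1) ^ 2
      + BU x (x + z) (x + m * z) * (x + z + x - 1) + CU x (x + z) (x + m * z))
      = (((-2) * x ^ 1 * z ^ 1 + (2) * x ^ 1 * z ^ 2 + (2) * x ^ 1 * z ^ 3 + (-2) * x ^ 1 * z ^ 4 + (-2) * x ^ 2 * z ^ 0 + (10) * x ^ 2 * z ^ 1 + (-1) * x ^ 2 * z ^ 2 + (-10) * x ^ 2 * z ^ 3 + (3) * x ^ 2 * z ^ 4 + (8) * x ^ 3 * z ^ 0 + (-13) * x ^ 3 * z ^ 1 + (-9) * x ^ 3 * z ^ 2 + (11) * x ^ 3 * z ^ 3 + (-1) * x ^ 3 * z ^ 4 + (-10) * x ^ 4 * z ^ 0 + (3) * x ^ 4 * z ^ 1 + (10) * x ^ 4 *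 z ^ 2 + (-3) * x ^ 4 * z ^ 3 + (4) * x ^ 5 * z ^ 0 + (2) * x ^ 5 * z ^ 1 + (-2) * x ^ 5 * z ^ 2) * x ^ 3 * (x * m) ^ 0
        + ((4) * x ^ 1 * z ^ 2 + (-6) * x ^ 1 * z ^ 3 + (2) * x ^ 1 * z ^ 5 + (4) * x ^ 2 * z ^ 1 + (-20) * x ^ 2 * z ^ 2 + (12) * x ^ 2 * z ^ 3 + (8) * x ^ 2 * z ^ 4 + (-2) * x ^ 2 * z ^ 5 + (-14) * x ^ 3 * z ^ 1 + (26) * x ^ 3 * z ^ 2 + (2) * x ^ 3 * z ^ 3 + (-7) * x ^ 3 * z ^ 4 + (14) * x ^ 4 * z ^ 1 + (-8) * x ^ 4 * z ^ 2 + (-6) * x ^ 4 * z ^ 3 + (-4) * x ^ 5 * z ^ 1 + (-1) * x ^ 5 * z ^ 2) * x ^ 2 * (x * m) ^ 1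
        + ((-1) * x ^ 1 * z ^ 3 + (1) * x ^ 1 * z ^ 4 + (1) * x ^ 1 * z ^ 5 + (-1) * x ^ 1 * z ^ 6 + (-1) * x ^ 2 * z ^ 2 + (3) * x ^ 2 * z ^ 3 + (-1) * x ^ 2 * z ^ 4 + (-4) * x ^ 2 * z ^ 5 + (2) * x ^ 3 * z ^ 2 + (-4) * x ^ 3 * z ^ 3 + (-3) * x ^ 3 * z ^ 4 + (-2) * x ^ 4 * z ^ 2 + (1) * x ^ 4 * z ^ 3 + (1) * x ^ 5 * z ^ 2) * x ^ 1 * (x * m) ^ 2
        + ((1) * x ^ 2 * z ^ 5 + (2) * x ^ 3 * z ^ 4 + (1) * x ^ 4 * z ^ 3) * x ^ 0 * (x * m) ^ 3) := by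
      unfold AU BU CU
      ring
    rw [e1, ← hc]
    subst hb
    subst ha
    ring_nf
    positivity
  have h2 := (mul_pos_iff_of_pos_left hx3).1 key
  linarith

end Helper138QS
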