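import Pool.Agent.Helper138_QS.U0
import Pool.Agent.Helper138_QS.U0b
import Pool.Agent.Helper138_QS.U1
import Pool.Agent.Helper138_QS.U2
import Pool.Agent.Helper138_QS.U2b
import Pool.Agent.Helper138_QS.U3

namespace Helper138QS

/-- The quadratic in `λ` has no integer root when `y - x` is large. -/
theorem no_large {x z m l : ℤ} (hx : 3 ≤ x) (hm : 2 ≤ m) (hz : (x - 1) * x ^ 2 ≤ z)
    (hl : 1 ≤ l) (h : AU x (x + z) (x + m * z) * l ^ 2 + BU x (x + z) (x + m * z) * l
      + CU x (x + z) (x + m * z) = 0) : False := by
  have hxx : x ^ 2 = x * x := by ring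
  have h9 : 9 ≤ x ^ 2 := by nlinarith
  have hz1 : 2 * x ^ 2 ≤ z := by
    have : 2 * x ^ 2 ≤ (x - 1) * x ^ 2 :=
      mul_le_mul_of_nonneg_right (by linarith) (by linarith)
    linarith
  have hx2 : 3 * x ≤ x ^ 2 := by nlinarith
  have hz2 : x ^ 2 + 2 * x ≤ z := by linarith
  have hA : 0 < AU x (x + z) (x + m * z) := uA (by linarith) hm (by linarith)
  have hC : CU x (x + z) (x + m * z) < 0 := uC (by linarith) hm (by linarith)
  have hm2 : 0 < m ^ 2 := pow_pos (by linarith) 2
  have hCm : CU x (x + z) (x + m * z) * m ^ 2 < 0 := mul_neg_of_neg_of_pos hC hm2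
  have hL : AU x (x + z) (x + m * z) * (m * l) ^ 2
      + (BU x (x + z) (x + m * z) * m) * (m * l) + CU x (x + z) (x + m * z) * m ^ 2 = 0 := by
    linear_combination m ^ 2 * h
  have hml : 1 ≤ m * l := by nlinarith
  by_cases h32 : x = 3 ∧ m = 2
  · obtain ⟨rfl, rfl⟩ := h32
    have r1 := lt_root hA hC hl (u0c (z := z) (by linarith)) h
    have r2 := root_lt hA hC (by linarith) (u0d (z := z) (by linarith)) h
    omega
  · have g0 : m * (x + z + x - 1) - x < m * l := by
      rcases eq_or_lt_of_le hm with h2 | h2
      · have h4 : 4 ≤ x := by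
          by_contra hc
          exact h32 ⟨by omega, h2.symm⟩
        subst h2
        exact lt_root hA hCm hml (u0b h4 (by linarith)) hL
      · exact lt_root hA hCm hml (u0 (by linarith) (by linarith) (by linarith)) hL
    rcases le_or_gt ((m - 1) * x ^ 2) z with h1 | h1
    · have hpos : 0 ≤ m * (x + z + x - 1) - x + 1 := by nlinarith
      have r1 := root_lt hA hCm hpos (u1 (by linarith) hm h1) hL
      omega
    · have hmx : x + 1 ≤ m := by
        have h2 : (x - 1) * x ^ 2 < (m - 1) * x ^ 2 := by linarith
        have h3 : x - 1 < m - 1 := lt_of_mul_lt_mul_right h2 (by linarith)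
        omega
      have hlow : x + z + x - 1 ≤ l := by
        by_contra hc
        push Not at hc
        have h2 : m * l ≤ m * (x + z + x - 1 - 1) :=
          mul_le_mul_of_nonneg_left (by omega) (by linarith)
        nlinarith
      have r2 := root_lt hA hC (by linarith) (u3 (by linarith) hm hz2) h
      have hl' : l = x + z + x - 1 := by omega
      subst hl'
      rcases le_or_gt (x * m - 2 * x + 1) z with h2 | h2
      · have := u2pos (by linarith) (by linarith) h2
        linarith
      · have := u2neg (x := x) (z := z) (m := m) (by linarith) (by linarith) (by linarith)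
        linarith

end Helper138QS
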