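import Pool.Agent.Helper138_QS.Arith2

/-! The quadratic in `λ` for general intersection numbers. -/

namespace Helper138QS

/-- leading coefficient -/
def AU (x y k : ℤ) : ℤ := (k - 1) * ((x ^ 2 + y ^ 2 - 2 * x * y - 2 * x - 2 * y + 1) * k ^ 2
  + 8 * x * y * k - 2 * x * y - 2 * x ^ 2 * y - 2 * x * y ^ 2)

/-- middle coefficient -/
def BU (x y k : ℤ) : ℤ := -((((x + y - 1) ^ 2 - 2 * (x * y)) * k - x * y * (x + y - 1 - 2))
    * ((x + y - 1) * k * (k - 1) - x * y)
  - 2 * (x * y) * (k - 2) * ((k - 1) * ((x + y - 1) * k - 2 * (x * y))))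

/-- constant coefficient -/
def CU (x y k : ℤ) : ℤ := -((x * y) ^ 2 * (k - 2) * (k - x) * (k - y))

end Helper138QS
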