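import Pool.Agent.Helper138_QS.Div
import Pool.Agent.Helper138_QS.UDef

namespace Helper138QS.X

open Finset Helper138QS

variable {V : Type*} [DecidableEq V] [Fintype V] {𝓑 : Finset (Finset V)} {k l x y : ℕ}

/-- The quadratic for `λ` of a quasi-symmetric 3-design with `x ≥ 1`. -/
theorem QS.quad (h : QS 𝓑 k l x y) (hx : 1 ≤ x) :
    AU x y k * (l : ℤ) ^ 2 + BU x y k * (l : ℤ) + CU x y k = 0 := by
  obtain ⟨s, r, w, hs1, hw, hs, hr, ha, hb⟩ := h.eqs
  have hyk := h.y_lt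
  have hl := h.l_pos
  have hxy := h.hxy
  have h3k := h.h3k
  generalize hK : (k : ℤ) = K at *
  generalize hX : (x : ℤ) = X at *
  generalize hY : (y : ℤ) = Y at *
  generalize hL : (l : ℤ) = L at *
  have eL : (((X + Y - 1) ^ 2 - 2 * (X * Y)) * K - X * Y * (X + Y - 1 - 2)) * s
      = (K - 1) * ((X + Y - 1) * K - 2 * (X * Y)) * L - X * Y * (K - X) * (K - Y) := by
    linear_combination -(X * Y) * ha + (X - 1) * (Y - 1) * hb
  have eQ : K * (K - 1) ^ 2 * L ^ 2 - ((X + Y - 1) * K * (K - 1) - X * Y) * L * s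
      + X * Y * (K - 2) * s ^ 2 = 0 := by
    linear_combination L * (K - 1) * hb - X * Y * L * hr + X * Y * s * hs
  have eG : X * Y * (K - X) * (K - Y) * (AU X Y K * L ^ 2 + BU X Y K * L + CU X Y K) = 0 := by
    unfold AU BU CU
    linear_combination (-(((X + Y - 1) ^ 2 - 2 * (X * Y)) * K - X * Y * (X + Y - 1 - 2)) ^ 2) * eQ
      + (-((X + Y - 1) * K * (K - 1) - X * Y) * L
          * (((X + Y - 1) ^ 2 - 2 * (X * Y)) * K - X * Y * (X + Y - 1 - 2))
        + X * Y * (K - 2) * (((K - 1) * ((X + Y - 1) * K - 2 * (X * Y)) * L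
            - X * Y * (K - X) * (K - Y))
          + (((X + Y - 1) ^ 2 - 2 * (X * Y)) * K - X * Y * (X + Y - 1 - 2)) * s)) * eL
  rcases mul_eq_zero.1 eG with h1 | h1
  · exfalso
    have : 0 < X * Y * (K - X) * (K - Y) :=
      mul_pos (mul_pos (mul_pos (by omega) (by omega)) (by omega)) (by omega)
    omega
  · exact h1

/-- The multiplier `m`. -/
theorem QS.mult (h : QS 𝓑 k l x y) (hv : k + 1 < Fintype.card V) :
    ∃ m : ℤ, 2 ≤ m ∧ (k : ℤ) = x + m * ((y : ℤ) - x) := by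
  obtain ⟨m, hm⟩ := h.dvd hv
  have hyk := h.y_lt
  have hxy := h.hxy
  refine ⟨m, ?_, by linear_combination hm⟩
  by_contra hc
  push Not at hc
  have h1 : (0 : ℤ) < (y : ℤ) - x := by omega
  have h2 : ((y : ℤ) - x) * m ≤ ((y : ℤ) - x) * 1 :=
    mul_le_mul_of_nonneg_left (by omega) h1.le
  rw [← hm] at h2
  omega

end Helper138QS.X
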