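import Pool.Agent.Helper138_QS.Arith

/-! Double counting for quasi-symmetric 3-designs. -/

namespace Helper138QS

open Finset

variable {V : Type*} [DecidableEq V]

/-- Weighted double count. -/
theorem dcount (S : Finset (Finset V)) (X : Finset V) (f : Finset V → ℕ) :
    ∑ B ∈ S, f B * (B ∩ X).card = ∑ x ∈ X, ∑ B ∈ S.filter (fun B => x ∈ B), f B := by
  have h1 : ∀ B ∈ S, f B * (B ∩ X).card = ∑ x ∈ X, if x ∈ B then f B else 0 := by
    intro B _
    rw [← Finset.sum_filter, Finset.sum_const, smul_eq_mul, mul_comm]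
    congr 2
    ext x
    simp [and_comm]
  rw [Finset.sum_congr rfl h1, Finset.sum_comm]
  refine Finset.sum_congr rfl fun x _ => ?_
  rw [Finset.sum_filter]

theorem dcount1 (S : Finset (Finset V)) (X : Finset V) :
    ∑ B ∈ S, (B ∩ X).card = ∑ x ∈ X, (S.filter (fun B => x ∈ B)).card := by
  have := dcount S X (fun _ => 1)
  simpa using this

/-- Parameters of a quasi-symmetric 3-design with smaller intersection number 1. -/
structure QS [Fintype V] (𝓑 : Finset (Finset V)) (k l y : ℕ) : Prop where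
  hk : ∀ B ∈ 𝓑, B.card = k
  h3 : ∀ T : Finset V, T.card = 3 → (𝓑.filter (fun B => T ⊆ B)).card = l
  hI : ∀ B ∈ 𝓑, ∀ B' ∈ 𝓑, B ≠ B' → (B ∩ B').card = 1 ∨ (B ∩ B').card = y
  hx : ∃ B ∈ 𝓑, ∃ B' ∈ 𝓑, B ≠ B' ∧ (B ∩ B').card = 1
  hy : ∃ B ∈ 𝓑, ∃ B' ∈ 𝓑, B ≠ B' ∧ (B ∩ B').card = y
  h1y : 1 < y
  h3k : 3 ≤ k
  hkv : k < Fintype.card V

variable [Fintype V] {𝓑 : Finset (Finset V)} {k l y : ℕ}

/-- Blocks through three points. -/
theorem QS.three (h : QS 𝓑 k l y) {a b c : V} (hab : a ≠ b) (hac : a ≠ c) (hbc : b ≠ c) :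
    (𝓑.filter (fun B => a ∈ B ∧ b ∈ B ∧ c ∈ B)).card = l := by
  rw [← h.h3 {a, b, c} (by rw [Finset.card_eq_three]; exact ⟨a, b, c, hab, hac, hbc, rfl⟩)]
  congr 1
  ext B
  simp [Finset.insert_subset_iff]

/-- Blocks through two points. -/
theorem QS.two (h : QS 𝓑 k l y) {a b : V} (hab : a ≠ b) :
    (𝓑.filter (fun B => a ∈ B ∧ b ∈ B)).card * (k - 2) = (Fintype.card V - 2) * l := by
  have h1 := dcount1 (𝓑.filter (fun B => a ∈ B ∧ b ∈ B)) (univ \ {a, b})
  have h2 : ∀ B ∈ 𝓑.filter (fun B => a ∈ B ∧ b ∈ B), (B ∩ (univ \ {a, b})).card = k - 2 := by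
    intro B hB
    rw [Finset.mem_filter] at hB
    have : B ∩ (univ \ {a, b}) = B \ {a, b} := by ext x; simp
    rw [this, Finset.card_sdiff_of_subset (by
      intro x hx; simp at hx; rcases hx with rfl | rfl; exacts [hB.2.1, hB.2.2]),
      h.hk B hB.1, Finset.card_pair hab]
  have h3 : ∀ x ∈ (univ \ {a, b} : Finset V),
      ((𝓑.filter (fun B => a ∈ B ∧ b ∈ B)).filter (fun B => x ∈ B)).card = l := by
    intro x hx
    simp at hx
    rw [Finset.filter_filter, ← h.three hab (Ne.symm hx.1) (Ne.symm hx.2)]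
    congr 1
    ext B
    simp [and_assoc]
  rw [Finset.sum_congr rfl h2, Finset.sum_congr rfl h3, Finset.sum_const, Finset.sum_const,
    smul_eq_mul, smul_eq_mul, Finset.card_sdiff_of_subset (Finset.subset_univ _),
    Finset.card_pair hab, Finset.card_univ] at h1
  exact h1

theorem QS.two_eq (h : QS 𝓑 k l y) {a b : V} (hab : a ≠ b) {s : ℕ}
    (hs : s * (k - 2) = (Fintype.card V - 2) * l) :
    (𝓑.filter (fun B => a ∈ B ∧ b ∈ B)).card = s := by
  have h1 := h.two hab
  rw [← hs] at h1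
  have := h.h3k
  exact Nat.eq_of_mul_eq_mul_right (by omega) h1

/-- Blocks through one point. -/
theorem QS.one (h : QS 𝓑 k l y) (a : V) {s : ℕ}
    (hs : s * (k - 2) = (Fintype.card V - 2) * l) :
    (𝓑.filter (fun B => a ∈ B)).card * (k - 1) = (Fintype.card V - 1) * s := by
  have h1 := dcount1 (𝓑.filter (fun B => a ∈ B)) (univ \ {a})
  have h2 : ∀ B ∈ 𝓑.filter (fun B => a ∈ B), (B ∩ (univ \ {a})).card = k - 1 := by
    intro B hB
    rw [Finset.mem_filter] at hB
    have : B ∩ (univ \ {a}) = B \ {a} := by ext x; simp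
    rw [this, Finset.card_sdiff_of_subset (by simpa using hB.2), h.hk B hB.1,
      Finset.card_singleton]
  have h3 : ∀ x ∈ (univ \ {a} : Finset V),
      ((𝓑.filter (fun B => a ∈ B)).filter (fun B => x ∈ B)).card = s := by
    intro x hx
    simp at hx
    rw [Finset.filter_filter, ← h.two_eq (Ne.symm hx) hs]
  rw [Finset.sum_congr rfl h2, Finset.sum_congr rfl h3, Finset.sum_const, Finset.sum_const,
    smul_eq_mul, smul_eq_mul, Finset.card_sdiff_of_subset (Finset.subset_univ _),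
    Finset.card_singleton, Finset.card_univ] at h1
  exact h1

/-- Two blocks with two common points meet in `y` points. -/
theorem QS.inter_eq (h : QS 𝓑 k l y) {B B' : Finset V} (hB : B ∈ 𝓑) (hB' : B' ∈ 𝓑)
    (hne : B ≠ B') {a b : V} (hab : a ≠ b) (ha : a ∈ B) (hb : b ∈ B) (ha' : a ∈ B')
    (hb' : b ∈ B') : (B ∩ B').card = y := by
  rcases h.hI B hB B' hB' hne with h1 | h1
  · exfalso
    rw [Finset.card_eq_one] at h1
    obtain ⟨c, hc⟩ := h1
    have h2 : a ∈ B ∩ B' := Finset.mem_inter.2 ⟨ha, ha'⟩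
    have h3 : b ∈ B ∩ B' := Finset.mem_inter.2 ⟨hb, hb'⟩
    rw [hc, Finset.mem_singleton] at h2 h3
    exact hab (h2.trans h3.symm)
  · exact h1

/-- Equation (a). -/
theorem QS.eqa (h : QS 𝓑 k l y) {s : ℕ} (hs : s * (k - 2) = (Fintype.card V - 2) * l) :
    (s - 1) * (y - 2) = (k - 2) * (l - 1) := by
  obtain ⟨B, hB, -⟩ := h.hx
  have hBk := h.hk B hB
  have h3k := h.h3k
  obtain ⟨a, ha, b, hb, hab⟩ := Finset.one_lt_card.1 (show 1 < B.card by omega)
  have h1 := dcount1 ((𝓑.filter (fun B' => a ∈ B' ∧ b ∈ B')).erase B) (B \ {a, b})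
  have hsub : ({a, b} : Finset V) ⊆ B := by
    intro x hx; simp at hx; rcases hx with rfl | rfl; exacts [ha, hb]
  have h2 : ∀ B' ∈ (𝓑.filter (fun B' => a ∈ B' ∧ b ∈ B')).erase B,
      (B' ∩ (B \ {a, b})).card = y - 2 := by
    intro B' hB'
    rw [Finset.mem_erase, Finset.mem_filter] at hB'
    have : B' ∩ (B \ {a, b}) = (B ∩ B') \ {a, b} := by ext x; simp; tauto
    rw [this, Finset.card_sdiff_of_subset (by
      intro x hx; simp at hx; rcases hx with rfl | rfl
      exacts [Finset.mem_inter.2 ⟨ha, hB'.2.2.1⟩, Finset.mem_inter.2 ⟨hb, hB'.2.2.2⟩]),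
      h.inter_eq hB hB'.2.1 (Ne.symm hB'.1) hab ha hb hB'.2.2.1 hB'.2.2.2,
      Finset.card_pair hab]
  have h3 : ∀ x ∈ (B \ {a, b} : Finset V),
      (((𝓑.filter (fun B' => a ∈ B' ∧ b ∈ B')).erase B).filter (fun B' => x ∈ B')).card
        = l - 1 := by
    intro x hx
    simp at hx
    have h4 : ((𝓑.filter (fun B' => a ∈ B' ∧ b ∈ B')).erase B).filter (fun B' => x ∈ B')
        = (𝓑.filter (fun B' => a ∈ B' ∧ b ∈ B' ∧ x ∈ B')).erase B := by
      ext B'
      simp
      tauto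
    rw [h4, Finset.card_erase_of_mem (by simp [hB, ha, hb, hx.1]),
      h.three hab (Ne.symm hx.2.1) (Ne.symm hx.2.2)]
  rw [Finset.sum_congr rfl h2, Finset.sum_congr rfl h3, Finset.sum_const, Finset.sum_const,
    smul_eq_mul, smul_eq_mul, Finset.card_sdiff_of_subset hsub, Finset.card_pair hab, hBk,
    Finset.card_erase_of_mem (by simp [hB, ha, hb]), h.two_eq hab hs] at h1
  exact h1

/-- Equation (b). -/
theorem QS.eqb (h : QS 𝓑 k l y) {s r : ℕ} (hs : s * (k - 2) = (Fintype.card V - 2) * l)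
    (hr : r * (k - 1) = (Fintype.card V - 1) * s) :
    (y + 1) * (k * s) = k * (s + (k - 1) * l) + y * r := by
  obtain ⟨B, hB, -⟩ := h.hx
  have hBk := h.hk B hB
  have h3k := h.h3k
  have hkv := h.hkv
  have h1y := h.h1y
  obtain ⟨p, hp⟩ : ∃ p, p ∉ B := by
    by_contra hcon
    push Not at hcon
    have : B = univ := Finset.eq_univ_iff_forall.2 hcon
    rw [this, Finset.card_univ] at hBk
    omega
  have hrp : (𝓑.filter (fun B' => p ∈ B')).card = r := by
    have h1 := h.one p hs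
    rw [← hr] at h1
    exact Nat.eq_of_mul_eq_mul_right (by omega) h1
  -- first moment
  have m1 : ∑ B' ∈ 𝓑.filter (fun B' => p ∈ B'), (B' ∩ B).card = k * s := by
    rw [dcount1, Finset.sum_congr rfl (g := fun _ => s), Finset.sum_const, smul_eq_mul, hBk]
    intro x hx
    rw [Finset.filter_filter]
    exact h.two_eq (a := p) (b := x) (fun h5 => hp (h5 ▸ hx)) hs
  -- second moment
  have m2 : ∑ B' ∈ 𝓑.filter (fun B' => p ∈ B'), (B' ∩ B).card * (B' ∩ B).card
      = k * (s + (k - 1) * l) := by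
    rw [dcount, Finset.sum_congr rfl (g := fun _ => s + (k - 1) * l), Finset.sum_const,
      smul_eq_mul, hBk]
    intro x hx
    rw [dcount1, ← Finset.insert_erase hx, Finset.sum_insert (Finset.notMem_erase _ _)]
    congr 1
    · have h5 := h.two_eq (a := p) (b := x) (fun h5 => hp (h5 ▸ hx)) hs
      rw [← h5]
      congr 1
      ext B'
      simp
      tauto
    · rw [Finset.sum_congr rfl (g := fun _ => l), Finset.sum_const, smul_eq_mul,
        Finset.card_erase_of_mem hx, hBk]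
      intro z hz
      rw [Finset.mem_erase] at hz
      have h5 := h.three (a := p) (b := x) (c := z) (fun h5 => hp (h5 ▸ hx))
        (fun h5 => hp (h5 ▸ hz.2)) (Ne.symm hz.1)
      rw [← h5]
      congr 1
      ext B'
      simp
      tauto
  have m3 : ∑ B' ∈ 𝓑.filter (fun B' => p ∈ B'), (B' ∩ B).card * (B' ∩ B).card
      + y * (𝓑.filter (fun B' => p ∈ B')).card
      = (y + 1) * ∑ B' ∈ 𝓑.filter (fun B' => p ∈ B'), (B' ∩ B).card := by
    rw [Finset.card_eq_sum_ones, Finset.mul_sum, ← Finset.sum_add_distrib, Finset.mul_sum]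
    refine Finset.sum_congr rfl fun B' hB' => ?_
    rw [Finset.mem_filter] at hB'
    rcases h.hI B' hB'.1 B hB (by rintro rfl; exact hp hB'.2) with h6 | h6 <;> rw [h6] <;> ring
  rw [m1, m2, hrp] at m3
  exact m3.symm

/-- All parameters. -/
theorem QS.params (h : QS 𝓑 k l y) :
    (Fintype.card V = 5 ∧ k = 3 ∧ l = 1 ∧ y = 2) ∨
    (Fintype.card V = 22 ∧ k = 7 ∧ l = 4 ∧ y = 3) ∨
    (Fintype.card V = 23 ∧ k = 7 ∧ l = 5 ∧ y = 3) := by
  have h3k := h.h3k
  have hkv := h.hkv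
  have h1y := h.h1y
  -- `l` is positive
  have hl : 1 ≤ l := by
    obtain ⟨B, hB, -⟩ := h.hx
    obtain ⟨T, hT, hT3⟩ := Finset.exists_subset_card_eq (show 3 ≤ B.card by
      rw [h.hk B hB]; exact h3k)
    rw [← h.h3 T hT3]
    exact Finset.card_pos.2 ⟨B, by simp [hB, hT]⟩
  -- `y < k`
  have hyk : y < k := by
    obtain ⟨B, hB, B', hB', hne, hc⟩ := h.hy
    by_contra hcon
    apply hne
    have h1 : B ∩ B' = B := Finset.eq_of_subset_of_card_le Finset.inter_subset_left
      (by rw [h.hk B hB, hc]; omega)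
    have h2 : B ∩ B' = B' := Finset.eq_of_subset_of_card_le Finset.inter_subset_right
      (by rw [h.hk B' hB', hc]; omega)
    rw [← h1, h2]
  -- `v ≥ 2 k - 1`
  have hv : 2 * k ≤ Fintype.card V + 1 := by
    obtain ⟨B, hB, B', hB', hne, hc⟩ := h.hx
    have h1 := Finset.card_union_add_card_inter B B'
    rw [h.hk B hB, h.hk B' hB', hc] at h1
    have h2 : (B ∪ B').card ≤ Fintype.card V := Finset.card_le_univ _
    omega
  -- replication numbers
  obtain ⟨a, b, hab⟩ : ∃ a b : V, a ≠ b := by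
    have : 1 < Fintype.card V := by omega
    exact Fintype.exists_pair_of_one_lt_card this
  have hs := h.two hab
  have hr := h.one a hs
  have ha := h.eqa hs
  have hb := h.eqb hs hr
  generalize (𝓑.filter (fun B => a ∈ B ∧ b ∈ B)).card = s at hs hr ha hb
  generalize (𝓑.filter (fun B => a ∈ B)).card = r at hr hb
  have hs1 : 1 ≤ s := by
    rcases Nat.eq_zero_or_pos s with h0 | h0
    · subst h0
      rw [Nat.zero_mul] at hs
      have := Nat.mul_pos (show 0 < Fintype.card V - 2 by omega) hl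
      omega
    · exact h0
  generalize Fintype.card V = v at *
  obtain ⟨A, rfl⟩ : ∃ A, k = A + 1 := ⟨k - 1, by omega⟩
  obtain ⟨u, rfl⟩ : ∃ u, y = u + 1 := ⟨y - 1, by omega⟩
  obtain ⟨w, rfl⟩ : ∃ w, v = w + 2 := ⟨v - 2, by omega⟩
  obtain ⟨A', rfl⟩ : ∃ A', A = A' + 1 := ⟨A - 1, by omega⟩
  obtain ⟨u', rfl⟩ : ∃ u', u = u' + 1 := ⟨u - 1, by omega⟩
  obtain ⟨s', rfl⟩ : ∃ s', s = s' + 1 := ⟨s - 1, by omega⟩
  obtain ⟨l', rfl⟩ : ∃ l', l = l' + 1 := ⟨l - 1, by omega⟩
  simp only [Nat.add_sub_cancel, show A' + 1 + 1 - 2 = A' by omega,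
    show u' + 1 + 1 - 2 = u' by omega, show w + 2 - 1 = w + 1 by omega,
    show A' + 1 + 1 - 1 = A' + 1 by omega] at hs hr ha hb
  zify at hs hr ha hb
  have key := arith (A := (A' : ℤ) + 1) (u := (u' : ℤ) + 1) (l := (l' : ℤ) + 1)
    (s := (s' : ℤ) + 1) (w := (w : ℤ)) (r := (r : ℤ)) (by omega) (by omega) (by omega)
    (by omega) (by linear_combination hs) (by linear_combination hr)
    (by linear_combination ha) (by linear_combination hb) (by omega)
  omega

end Helper138QS
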