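import Mathlib

/-! Double counting for quasi-symmetric 3-designs, general intersection numbers `x < y`. -/

namespace Helper138QS.X

open Finset

variable {V : Type*} [DecidableEq V]

/-- Weighted double count. -/
theorem dcount (S : Finset (Finset V)) (X : Finset V) (f : Finset V → ℕ) :
    ∑ B ∈ S, f B * (B ∩ X).card = ∑ x ∈ X, ∑ B ∈ S.filter (fun B => x ∈ B), f B := by
  have h1 : ∀ B ∈ S, f B * (B ∩ X).card = ∑ x ∈ X, if x ∈ B then f B else 0 := by
    intro B _
    rw [← Finset.sum_filter, Finset.sum_const, smul_eq_mul, mul_comm]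
    congr 2
    ext x
    simp [and_comm]
  rw [Finset.sum_congr rfl h1, Finset.sum_comm]
  refine Finset.sum_congr rfl fun x _ => ?_
  rw [Finset.sum_filter]

theorem dcount1 (S : Finset (Finset V)) (X : Finset V) :
    ∑ B ∈ S, (B ∩ X).card = ∑ x ∈ X, (S.filter (fun B => x ∈ B)).card := by
  have := dcount S X (fun _ => 1)
  simpa using this

/-- Quasi-symmetric 3-designs. -/
structure QS [Fintype V] (𝓑 : Finset (Finset V)) (k l x y : ℕ) : Prop where
  hk : ∀ B ∈ 𝓑, B.card = k
  h3 : ∀ T : Finset V, T.card = 3 → (𝓑.filter (fun B => T ⊆ B)).card = l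
  hI : ∀ B ∈ 𝓑, ∀ B' ∈ 𝓑, B ≠ B' → (B ∩ B').card = x ∨ (B ∩ B').card = y
  hx : ∃ B ∈ 𝓑, ∃ B' ∈ 𝓑, B ≠ B' ∧ (B ∩ B').card = x
  hy : ∃ B ∈ 𝓑, ∃ B' ∈ 𝓑, B ≠ B' ∧ (B ∩ B').card = y
  hxy : x < y
  h3k : 3 ≤ k
  hkv : k < Fintype.card V

variable [Fintype V] {𝓑 : Finset (Finset V)} {k l x y : ℕ}

/-- Blocks through three points. -/
theorem QS.three (h : QS 𝓑 k l x y) {a b c : V} (hab : a ≠ b) (hac : a ≠ c) (hbc : b ≠ c) :
    (𝓑.filter (fun B => a ∈ B ∧ b ∈ B ∧ c ∈ B)).card = l := by
  rw [← h.h3 {a, b, c} (by rw [Finset.card_eq_three]; exact ⟨a, b, c, hab, hac, hbc, rfl⟩)]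
  congr 1
  ext B
  simp [Finset.insert_subset_iff]

/-- Blocks through two points. -/
theorem QS.two (h : QS 𝓑 k l x y) {a b : V} (hab : a ≠ b) :
    (𝓑.filter (fun B => a ∈ B ∧ b ∈ B)).card * (k - 2) = (Fintype.card V - 2) * l := by
  have h1 := dcount1 (𝓑.filter (fun B => a ∈ B ∧ b ∈ B)) (univ \ {a, b})
  have h2 : ∀ B ∈ 𝓑.filter (fun B => a ∈ B ∧ b ∈ B), (B ∩ (univ \ {a, b})).card = k - 2 := by
    intro B hB
    rw [Finset.mem_filter] at hB
    have : B ∩ (univ \ {a, b}) = B \ {a, b} := by ext x; simp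
    rw [this, Finset.card_sdiff_of_subset (by
      intro x hx; simp at hx; rcases hx with rfl | rfl; exacts [hB.2.1, hB.2.2]),
      h.hk B hB.1, Finset.card_pair hab]
  have h3 : ∀ x ∈ (univ \ {a, b} : Finset V),
      ((𝓑.filter (fun B => a ∈ B ∧ b ∈ B)).filter (fun B => x ∈ B)).card = l := by
    intro x hx
    simp at hx
    rw [Finset.filter_filter, ← h.three hab (Ne.symm hx.1) (Ne.symm hx.2)]
    congr 1
    ext B
    simp [and_assoc]
  rw [Finset.sum_congr rfl h2, Finset.sum_congr rfl h3, Finset.sum_const, Finset.sum_const,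
    smul_eq_mul, smul_eq_mul, Finset.card_sdiff_of_subset (Finset.subset_univ _),
    Finset.card_pair hab, Finset.card_univ] at h1
  exact h1

theorem QS.two_eq (h : QS 𝓑 k l x y) {a b : V} (hab : a ≠ b) {s : ℕ}
    (hs : s * (k - 2) = (Fintype.card V - 2) * l) :
    (𝓑.filter (fun B => a ∈ B ∧ b ∈ B)).card = s := by
  have h1 := h.two hab
  rw [← hs] at h1
  have := h.h3k
  exact Nat.eq_of_mul_eq_mul_right (by omega) h1

/-- Blocks through one point. -/
theorem QS.one (h : QS 𝓑 k l x y) (a : V) {s : ℕ}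
    (hs : s * (k - 2) = (Fintype.card V - 2) * l) :
    (𝓑.filter (fun B => a ∈ B)).card * (k - 1) = (Fintype.card V - 1) * s := by
  have h1 := dcount1 (𝓑.filter (fun B => a ∈ B)) (univ \ {a})
  have h2 : ∀ B ∈ 𝓑.filter (fun B => a ∈ B), (B ∩ (univ \ {a})).card = k - 1 := by
    intro B hB
    rw [Finset.mem_filter] at hB
    have : B ∩ (univ \ {a}) = B \ {a} := by ext x; simp
    rw [this, Finset.card_sdiff_of_subset (by simpa using hB.2), h.hk B hB.1,
      Finset.card_singleton]
  have h3 : ∀ x ∈ (univ \ {a} : Finset V),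
      ((𝓑.filter (fun B => a ∈ B)).filter (fun B => x ∈ B)).card = s := by
    intro x hx
    simp at hx
    rw [Finset.filter_filter, ← h.two_eq (Ne.symm hx) hs]
  rw [Finset.sum_congr rfl h2, Finset.sum_congr rfl h3, Finset.sum_const, Finset.sum_const,
    smul_eq_mul, smul_eq_mul, Finset.card_sdiff_of_subset (Finset.subset_univ _),
    Finset.card_singleton, Finset.card_univ] at h1
  exact h1

theorem QS.one_eq (h : QS 𝓑 k l x y) (a : V) {s r : ℕ}
    (hs : s * (k - 2) = (Fintype.card V - 2) * l) (hr : r * (k - 1) = (Fintype.card V - 1) * s) :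
    (𝓑.filter (fun B => a ∈ B)).card = r := by
  have h1 := h.one a hs
  rw [← hr] at h1
  have := h.h3k
  exact Nat.eq_of_mul_eq_mul_right (by omega) h1

/-- Equation (a): a point on a block. -/
theorem QS.eqa (h : QS 𝓑 k l x y) {s r : ℕ} (hs : s * (k - 2) = (Fintype.card V - 2) * l)
    (hr : r * (k - 1) = (Fintype.card V - 1) * s) :
    ((r - 1) + 3 * ((k - 1) * (s - 1)) + (k - 1) * ((k - 2) * (l - 1))) + x * y * (r - 1)
      = (x + y) * ((r - 1) + (k - 1) * (s - 1)) := by
  obtain ⟨B, hB, -⟩ := h.hx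
  have hBk := h.hk B hB
  have h3k := h.h3k
  obtain ⟨p, hp⟩ : B.Nonempty := Finset.card_pos.1 (by omega)
  -- number of blocks through sets of points of `B`, other than `B`
  have c1 : ((𝓑.filter (fun B' => p ∈ B')).erase B).card = r - 1 := by
    rw [Finset.card_erase_of_mem (by simp [hB, hp]), h.one_eq p hs hr]
  have c2 : ∀ a ∈ B, ∀ b ∈ B, a ≠ b →
      ((𝓑.filter (fun B' => a ∈ B' ∧ b ∈ B')).erase B).card = s - 1 := by
    intro a ha b hb hab
    rw [Finset.card_erase_of_mem (by simp [hB, ha, hb]), h.two_eq hab hs]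
  have c3 : ∀ a ∈ B, ∀ b ∈ B, ∀ c ∈ B, a ≠ b → a ≠ c → b ≠ c →
      ((𝓑.filter (fun B' => a ∈ B' ∧ b ∈ B' ∧ c ∈ B')).erase B).card = l - 1 := by
    intro a ha b hb c hc hab hac hbc
    rw [Finset.card_erase_of_mem (by simp [hB, ha, hb, hc]), h.three hab hac hbc]
  have f1 : ∀ z, ((𝓑.filter (fun B' => p ∈ B')).erase B).filter (fun B' => z ∈ B')
      = (𝓑.filter (fun B' => p ∈ B' ∧ z ∈ B')).erase B := by
    intro z; ext B'; simp; tauto
  have f2 : ∀ z u, ((𝓑.filter (fun B' => p ∈ B' ∧ z ∈ B')).erase B).filter (fun B' => u ∈ B')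
      = (𝓑.filter (fun B' => p ∈ B' ∧ z ∈ B' ∧ u ∈ B')).erase B := by
    intro z u; ext B'; simp; tauto
  -- first moment
  have m1 : ∑ B' ∈ (𝓑.filter (fun B' => p ∈ B')).erase B, (B' ∩ B).card
      = (r - 1) + (k - 1) * (s - 1) := by
    rw [dcount1, ← Finset.insert_erase hp, Finset.sum_insert (Finset.notMem_erase _ _)]
    congr 1
    · rw [Finset.insert_erase hp, f1 p]
      simp only [and_self]
      exact c1
    · rw [Finset.sum_congr rfl (g := fun _ => s - 1), Finset.sum_const, smul_eq_mul,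
        Finset.card_erase_of_mem hp, hBk]
      intro z hz
      rw [Finset.mem_erase] at hz
      rw [Finset.insert_erase hp, f1 z]
      exact c2 p hp z hz.2 (Ne.symm hz.1)
  -- second moment
  have m2 : ∑ B' ∈ (𝓑.filter (fun B' => p ∈ B')).erase B, (B' ∩ B).card * (B' ∩ B).card
      = (r - 1) + 3 * ((k - 1) * (s - 1)) + (k - 1) * ((k - 2) * (l - 1)) := by
    rw [dcount]
    have hz0 : ∀ z ∈ B.erase p, ∑ B' ∈ ((𝓑.filter (fun B' => p ∈ B')).erase B).filter
        (fun B' => z ∈ B'), (B' ∩ B).card = 2 * (s - 1) + (k - 2) * (l - 1) := by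
      intro z hz
      rw [Finset.mem_erase] at hz
      rw [f1 z, dcount1]
      have hB2 : insert p (insert z ((B.erase p).erase z)) = B := by
        rw [Finset.insert_erase (Finset.mem_erase.2 hz), Finset.insert_erase hp]
      have key : ∑ u ∈ insert p (insert z ((B.erase p).erase z)),
          (((𝓑.filter (fun B' => p ∈ B' ∧ z ∈ B')).erase B).filter (fun B' => u ∈ B')).card
          = 2 * (s - 1) + (k - 2) * (l - 1) := by
        rw [Finset.sum_insert (by simp [Ne.symm hz.1]), Finset.sum_insert (by simp)]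
        have e1 : (((𝓑.filter (fun B' => p ∈ B' ∧ z ∈ B')).erase B).filter
            (fun B' => p ∈ B')).card = s - 1 := by
          rw [f2 z p, ← c2 p hp z hz.2 (Ne.symm hz.1)]
          congr 1; ext B'; simp; tauto
        have e2 : (((𝓑.filter (fun B' => p ∈ B' ∧ z ∈ B')).erase B).filter
            (fun B' => z ∈ B')).card = s - 1 := by
          rw [f2 z z, ← c2 p hp z hz.2 (Ne.symm hz.1)]
          congr 1; ext B'; simp
        have e3 : ∑ u ∈ (B.erase p).erase z,
            (((𝓑.filter (fun B' => p ∈ B' ∧ z ∈ B')).erase B).filter (fun B' => u ∈ B')).card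
            = (k - 2) * (l - 1) := by
          rw [Finset.sum_congr rfl (g := fun _ => l - 1), Finset.sum_const, smul_eq_mul,
            Finset.card_erase_of_mem (Finset.mem_erase.2 hz), Finset.card_erase_of_mem hp, hBk]
          · rfl
          · intro u hu
            rw [Finset.mem_erase, Finset.mem_erase] at hu
            rw [f2 z u]
            exact c3 p hp z hz.2 u hu.2.2 (Ne.symm hz.1) (Ne.symm hu.2.1) (Ne.symm hu.1)
        rw [e1, e2, e3]
        ring
      rwa [hB2] at key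
    have key : ∑ z ∈ insert p (B.erase p), ∑ B' ∈ ((𝓑.filter (fun B' => p ∈ B')).erase B).filter
        (fun B' => z ∈ B'), (B' ∩ B).card
        = (r - 1) + 3 * ((k - 1) * (s - 1)) + (k - 1) * ((k - 2) * (l - 1)) := by
      rw [Finset.sum_insert (Finset.notMem_erase _ _), Finset.sum_congr rfl hz0, Finset.sum_const,
        smul_eq_mul, Finset.card_erase_of_mem hp, hBk]
      have e1 : ((𝓑.filter (fun B' => p ∈ B')).erase B).filter (fun B' => p ∈ B')
          = (𝓑.filter (fun B' => p ∈ B')).erase B := by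
        rw [f1 p]; simp only [and_self]
      rw [e1, m1]
      ring
    rwa [Finset.insert_erase hp] at key
  have m3 : ∑ B' ∈ (𝓑.filter (fun B' => p ∈ B')).erase B, (B' ∩ B).card * (B' ∩ B).card
      + x * y * ((𝓑.filter (fun B' => p ∈ B')).erase B).card
      = (x + y) * ∑ B' ∈ (𝓑.filter (fun B' => p ∈ B')).erase B, (B' ∩ B).card := by
    rw [Finset.card_eq_sum_ones, Finset.mul_sum, ← Finset.sum_add_distrib, Finset.mul_sum]
    refine Finset.sum_congr rfl fun B' hB' => ?_
    rw [Finset.mem_erase, Finset.mem_filter] at hB'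
    rcases h.hI B' hB'.2.1 B hB hB'.1 with h6 | h6 <;> rw [h6] <;> ring
  rw [m1, m2, c1] at m3
  exact m3

/-- Equation (b): a point off a block. -/
theorem QS.eqb (h : QS 𝓑 k l x y) {s r : ℕ} (hs : s * (k - 2) = (Fintype.card V - 2) * l)
    (hr : r * (k - 1) = (Fintype.card V - 1) * s) :
    k * (s + (k - 1) * l) + x * y * r = (x + y) * (k * s) := by
  obtain ⟨B, hB, -⟩ := h.hx
  have hBk := h.hk B hB
  have h3k := h.h3k
  have hkv := h.hkv
  obtain ⟨p, hp⟩ : ∃ p, p ∉ B := by
    by_contra hcon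
    push Not at hcon
    have : B = univ := Finset.eq_univ_iff_forall.2 hcon
    rw [this, Finset.card_univ] at hBk
    omega
  have hrp := h.one_eq p hs hr
  -- first moment
  have m1 : ∑ B' ∈ 𝓑.filter (fun B' => p ∈ B'), (B' ∩ B).card = k * s := by
    rw [dcount1, Finset.sum_congr rfl (g := fun _ => s), Finset.sum_const, smul_eq_mul, hBk]
    intro x hx
    rw [Finset.filter_filter]
    exact h.two_eq (a := p) (b := x) (fun h5 => hp (h5 ▸ hx)) hs
  -- second moment
  have m2 : ∑ B' ∈ 𝓑.filter (fun B' => p ∈ B'), (B' ∩ B).card * (B' ∩ B).card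
      = k * (s + (k - 1) * l) := by
    rw [dcount, Finset.sum_congr rfl (g := fun _ => s + (k - 1) * l), Finset.sum_const,
      smul_eq_mul, hBk]
    intro x hx
    rw [dcount1, ← Finset.insert_erase hx, Finset.sum_insert (Finset.notMem_erase _ _)]
    congr 1
    · have h5 := h.two_eq (a := p) (b := x) (fun h5 => hp (h5 ▸ hx)) hs
      rw [← h5]
      congr 1
      ext B'
      simp
      tauto
    · rw [Finset.sum_congr rfl (g := fun _ => l), Finset.sum_const, smul_eq_mul,
        Finset.card_erase_of_mem hx, hBk]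
      intro z hz
      rw [Finset.mem_erase] at hz
      have h5 := h.three (a := p) (b := x) (c := z) (fun h5 => hp (h5 ▸ hx))
        (fun h5 => hp (h5 ▸ hz.2)) (Ne.symm hz.1)
      rw [← h5]
      congr 1
      ext B'
      simp
      tauto
  have m3 : ∑ B' ∈ 𝓑.filter (fun B' => p ∈ B'), (B' ∩ B).card * (B' ∩ B).card
      + x * y * (𝓑.filter (fun B' => p ∈ B')).card
      = (x + y) * ∑ B' ∈ 𝓑.filter (fun B' => p ∈ B'), (B' ∩ B).card := by
    rw [Finset.card_eq_sum_ones, Finset.mul_sum, ← Finset.sum_add_distrib, Finset.mul_sum]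
    refine Finset.sum_congr rfl fun B' hB' => ?_
    rw [Finset.mem_filter] at hB'
    rcases h.hI B' hB'.1 B hB (by rintro rfl; exact hp hB'.2) with h6 | h6 <;> rw [h6] <;> ring
  rw [m1, m2, hrp] at m3
  exact m3

end Helper138QS.X
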