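import Pool.Agent.Helper138_QS.X2

/-! In a quasi-symmetric 3-design the difference `y - x` divides `k - x`. -/

namespace Helper138QS.X

open Finset

/-- An integer kernel vector. -/
theorem kvec {α β : Type*} [DecidableEq α] [DecidableEq β] (I : Finset α) (J : Finset β)
    (R : α → β → Prop) [∀ a b, Decidable (R a b)] (hI : 0 < I.card) (h : I.card < J.card) :
    ∃ u : β → ℤ, (∃ b ∈ J, u b ≠ 0) ∧ ∀ a ∈ I, ∑ b ∈ J.filter (R a), u b = 0 := by
  obtain ⟨t, ht, hA, -⟩ := Int.Matrix.exists_ne_zero_int_vec_norm_le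
    (Matrix.of fun (a : I) (b : J) => if R a.1 b.1 then (1 : ℤ) else 0)
    (by simpa using h) (by simpa using hI)
  refine ⟨fun b => if hb : b ∈ J then t ⟨b, hb⟩ else 0, ?_, ?_⟩
  · by_contra hcon
    push Not at hcon
    apply ht
    funext b
    have := hcon b.1 b.2
    simpa using this
  · intro a ha
    have h1 := congrFun hA ⟨a, ha⟩
    simp only [Matrix.mulVec, dotProduct, Matrix.of_apply, Pi.zero_apply] at h1
    rw [Finset.sum_filter, ← Finset.sum_coe_sort]
    refine Eq.trans (Finset.sum_congr rfl fun b _ => ?_) h1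
    by_cases hR : R a b.1 <;> simp [hR]

variable {V : Type*} [DecidableEq V] [Fintype V] {𝓑 : Finset (Finset V)} {k l x y : ℕ}

/-- Fisher's inequality for the derived design. -/
theorem QS.fisher (h : QS 𝓑 k l x y) (hv : k + 1 < Fintype.card V) (p : V) :
    Fintype.card V - 1 ≤ (𝓑.filter (fun B => p ∈ B)).card := by
  by_contra hcon
  push Not at hcon
  have h3k := h.h3k
  have hl := h.l_pos
  obtain ⟨q₀, hq₀⟩ : ∃ q, q ≠ p :=
    Fintype.exists_ne_of_one_lt_card (show 1 < Fintype.card V by omega) p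
  have hs := h.two (Ne.symm hq₀)
  set s := (𝓑.filter (fun B => p ∈ B ∧ q₀ ∈ B)).card with hsdef
  have hr := h.one p hs
  have hsl : l < s := by
    by_contra hc
    push Not at hc
    have h1 : s * (k - 2) ≤ l * (k - 2) := Nat.mul_le_mul_right _ hc
    have h2 : l * (k - 2) < l * (Fintype.card V - 2) :=
      Nat.mul_lt_mul_of_pos_left (by omega) (by omega)
    rw [hs, mul_comm (Fintype.card V - 2) l] at h1
    omega
  have hrpos : 0 < (𝓑.filter (fun B => p ∈ B)).card := by
    rcases Nat.eq_zero_or_pos (𝓑.filter (fun B => p ∈ B)).card with h0 | h0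
    · rw [h0, Nat.zero_mul] at hr
      have := Nat.mul_pos (show 0 < Fintype.card V - 1 by omega) (show 0 < s by omega)
      omega
    · exact h0
  obtain ⟨f, ⟨q₁, hq₁, hf⟩, hK⟩ := kvec (𝓑.filter (fun B => p ∈ B)) (univ.erase p)
    (fun (B : Finset V) (q : V) => q ∈ B) hrpos
    (by rw [Finset.card_erase_of_mem (Finset.mem_univ _), Finset.card_univ]; exact hcon)
  set F : ℤ := ∑ q ∈ univ.erase p, f q with hF
  have key : ∀ q ∈ univ.erase p, ((s : ℤ) - l) * f q + l * F = 0 := by
    intro q hq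
    have hqp : q ≠ p := (Finset.mem_erase.1 hq).1
    have h1 : ∑ B ∈ (𝓑.filter (fun B => p ∈ B)).filter (fun B => q ∈ B),
        ∑ q' ∈ (univ.erase p).filter (fun q' => q' ∈ B), f q' = 0 :=
      Finset.sum_eq_zero fun B hB => hK B (Finset.mem_filter.1 hB).1
    have h2 : ∑ B ∈ (𝓑.filter (fun B => p ∈ B)).filter (fun B => q ∈ B),
        ∑ q' ∈ (univ.erase p).filter (fun q' => q' ∈ B), f q'
        = ∑ q' ∈ univ.erase p, ((((𝓑.filter (fun B => p ∈ B)).filter
            (fun B => q ∈ B)).filter (fun B => q' ∈ B)).card : ℤ) * f q' := by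
      simp only [Finset.sum_filter]
      rw [← Finset.sum_filter, ← Finset.sum_filter, Finset.sum_comm]
      refine Finset.sum_congr rfl fun q' _ => ?_
      rw [← Finset.sum_filter, Finset.sum_const, nsmul_eq_mul]
    have h3 : ∀ q' ∈ univ.erase p, ((((𝓑.filter (fun B => p ∈ B)).filter
            (fun B => q ∈ B)).filter (fun B => q' ∈ B)).card : ℤ) * f q'
        = (if q' = q then ((s : ℤ) - l) * f q else 0) + l * f q' := by
      intro q' hq'
      have hq'p : q' ≠ p := (Finset.mem_erase.1 hq').1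
      by_cases hqq : q' = q
      · subst hqq
        have h4 : ((𝓑.filter (fun B => p ∈ B)).filter
            (fun B => q' ∈ B)).filter (fun B => q' ∈ B)
            = 𝓑.filter (fun B => p ∈ B ∧ q' ∈ B) := by
          ext B; simp; tauto
        rw [h4, h.two_eq (Ne.symm hqp) hs, if_pos rfl]
        ring
      · have h4 : ((𝓑.filter (fun B => p ∈ B)).filter
            (fun B => q ∈ B)).filter (fun B => q' ∈ B)
            = 𝓑.filter (fun B => p ∈ B ∧ q ∈ B ∧ q' ∈ B) := by
          ext B; simp; tauto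
        rw [h4, h.three (Ne.symm hqp) (Ne.symm hq'p) (Ne.symm hqq), if_neg hqq]
        ring
    rw [h2, Finset.sum_congr rfl h3, Finset.sum_add_distrib, ← Finset.mul_sum,
      Finset.sum_ite_eq' (univ.erase p) q, if_pos hq] at h1
    exact h1
  have hsum := Finset.sum_congr rfl key
  rw [Finset.sum_add_distrib, ← Finset.mul_sum, Finset.sum_const, Finset.sum_const_zero,
    ← hF, nsmul_eq_mul] at hsum
  have hF0 : F = 0 := by
    have h5 : (((s : ℤ) - l) + (univ.erase p).card * l) * F = 0 := by linear_combination hsum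
    rcases mul_eq_zero.1 h5 with h6 | h6
    · exfalso
      have h7 : (0 : ℤ) ≤ ((univ.erase p).card : ℤ) * l := by positivity
      have h8 : (l : ℤ) < s := by exact_mod_cast hsl
      linarith
    · exact h6
  have h9 := key q₁ hq₁
  rw [hF0, mul_zero, add_zero] at h9
  rcases mul_eq_zero.1 h9 with h10 | h10
  · have h8 : (l : ℤ) < s := by exact_mod_cast hsl
    linarith
  · exact hf h10

/-- There are more blocks than points. -/
theorem QS.card_lt (h : QS 𝓑 k l x y) (hv : k + 1 < Fintype.card V) :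
    Fintype.card V < 𝓑.card := by
  have h3k := h.h3k
  have h1 := dcount1 𝓑 (univ : Finset V)
  have h2 : ∀ B ∈ 𝓑, (B ∩ univ).card = k := by
    intro B hB
    rw [Finset.inter_univ, h.hk B hB]
  have h3 : ∀ p ∈ (univ : Finset V), Fintype.card V - 1 ≤ (𝓑.filter (fun B => p ∈ B)).card :=
    fun p _ => h.fisher hv p
  have h4 := Finset.sum_le_sum h3
  rw [Finset.sum_congr rfl h2, Finset.sum_const, smul_eq_mul] at h1
  rw [← h1, Finset.sum_const, smul_eq_mul, Finset.card_univ] at h4
  by_contra hcon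
  push Not at hcon
  have h5 : 𝓑.card * k ≤ Fintype.card V * k := Nat.mul_le_mul_right _ hcon
  have h6 : Fintype.card V * k < Fintype.card V * (Fintype.card V - 1) :=
    Nat.mul_lt_mul_of_pos_left (by omega) (by omega)
  omega

/-- The divisibility. -/
theorem QS.dvd (h : QS 𝓑 k l x y) (hv : k + 1 < Fintype.card V) :
    ((y : ℤ) - x) ∣ ((k : ℤ) - x) := by
  have h3k := h.h3k
  have hbv := h.card_lt hv
  obtain ⟨u, hu, hK⟩ := kvec (univ : Finset V) 𝓑 (fun (p : V) (B : Finset V) => p ∈ B)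
    (by rw [Finset.card_univ]; omega) (by rw [Finset.card_univ]; exact hbv)
  have hne : 𝓑.Nonempty := Finset.card_pos.1 (by omega)
  obtain ⟨g, hg, hg1⟩ := Finset.extract_gcd u hne
  have hgcd : 𝓑.gcd u ≠ 0 := by
    intro h0
    rw [Finset.gcd_eq_zero_iff] at h0
    obtain ⟨B, hB, hB0⟩ := hu
    exact hB0 (h0 B hB)
  have hKg : ∀ p : V, ∑ B ∈ 𝓑.filter (fun B => p ∈ B), g B = 0 := by
    intro p
    have h1 := hK p (Finset.mem_univ _)
    have h2 : ∑ B ∈ 𝓑.filter (fun B => p ∈ B), u B
        = 𝓑.gcd u * ∑ B ∈ 𝓑.filter (fun B => p ∈ B), g B := by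
      rw [Finset.mul_sum]
      exact Finset.sum_congr rfl fun B hB => hg B (Finset.mem_filter.1 hB).1
    rw [h2] at h1
    rcases mul_eq_zero.1 h1 with h3 | h3
    · exact absurd h3 hgcd
    · exact h3
  have hcnt : ∀ X : Finset V, ∑ B ∈ 𝓑, g B * ((B ∩ X).card : ℤ) = 0 := by
    intro X
    have h1 : ∀ B ∈ 𝓑, g B * ((B ∩ X).card : ℤ) = ∑ p ∈ X, if p ∈ B then g B else 0 := by
      intro B _
      rw [← Finset.sum_filter, Finset.sum_const, nsmul_eq_mul, mul_comm]
      congr 3
      ext p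
      simp [and_comm]
    rw [Finset.sum_congr rfl h1, Finset.sum_comm]
    refine Finset.sum_eq_zero fun p _ => ?_
    rw [← Finset.sum_filter]
    exact hKg p
  have hsum0 : ∑ B ∈ 𝓑, g B = 0 := by
    have h1 := hcnt univ
    have h2 : ∀ B ∈ 𝓑, g B * ((B ∩ univ).card : ℤ) = (k : ℤ) * g B := by
      intro B hB
      rw [Finset.inter_univ, h.hk B hB, mul_comm]
    rw [Finset.sum_congr rfl h2, ← Finset.mul_sum] at h1
    rcases mul_eq_zero.1 h1 with h3 | h3
    · exfalso; have : (k : ℤ) ≠ 0 := by exact_mod_cast (by omega : k ≠ 0)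
      exact this h3
    · exact h3
  have hall : ∀ B ∈ 𝓑, ((y : ℤ) - x) ∣ ((k : ℤ) - x) * g B := by
    intro B hB
    have h1 : ∑ B' ∈ 𝓑, g B' * (((B' ∩ B).card : ℤ) - x) = 0 := by
      simp only [mul_sub]
      rw [Finset.sum_sub_distrib, hcnt B, ← Finset.sum_mul, hsum0]
      ring
    rw [← Finset.insert_erase hB, Finset.sum_insert (Finset.notMem_erase _ _)] at h1
    have h2 : ((y : ℤ) - x) ∣ ∑ B' ∈ 𝓑.erase B, g B' * (((B' ∩ B).card : ℤ) - x) := by
      refine Finset.dvd_sum fun B' hB' => ?_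
      rw [Finset.mem_erase] at hB'
      rcases h.hI B' hB'.2 B hB hB'.1 with h3 | h3
      · rw [h3]; simp
      · rw [h3]; exact Dvd.intro_left _ rfl
    have h3 : ((k : ℤ) - x) * g B = -∑ B' ∈ 𝓑.erase B, g B' * (((B' ∩ B).card : ℤ) - x) := by
      rw [Finset.inter_self, h.hk B hB] at h1
      linear_combination h1
    rw [h3]
    exact (dvd_neg).2 h2
  have h4 := Finset.dvd_gcd hall
  have h5 : (𝓑.gcd fun B => ((k : ℤ) - x) * g B) = normalize ((k : ℤ) - x) * 𝓑.gcd g :=
    Finset.gcd_mul_left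
  rw [h5, hg1, mul_one, dvd_normalize_iff] at h4
  exact h4

end Helper138QS.X
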