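import Pool.Agent.Helper138_QS.UDef

/-! For fixed `x, y` the block size is bounded. -/

namespace Helper138QS

theorem cubic_bd {p0 p1 p2 p3 k : ℤ} (hk : 1 ≤ k) (h : p0 + p1 * k + p2 * k ^ 2 + p3 * k ^ 3 = 0)
    (hne : ¬ (p0 = 0 ∧ p1 = 0 ∧ p2 = 0 ∧ p3 = 0)) : k ≤ |p0| + |p1| + |p2| + |p3| := by
  have a0 := abs_nonneg p0
  have a1 := abs_nonneg p1
  have a2 := abs_nonneg p2
  have a3 := abs_nonneg p3
  have hk0 : k ≠ 0 := by omega
  have dv : ∀ p q : ℤ, p ≠ 0 → p + q * k = 0 → k ≤ |p| := by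
    intro p q hp hq
    have h1 : k ∣ p := ⟨-q, by linear_combination hq⟩
    have h2 := Int.le_of_dvd (abs_pos.2 hp) ((dvd_abs k p).2 h1)
    exact h2
  by_cases h0 : p0 = 0
  · by_cases h1 : p1 = 0
    · by_cases h2 : p2 = 0
      · exfalso
        apply hne
        refine ⟨h0, h1, h2, ?_⟩
        subst h0 h1 h2
        have h3 : p3 * k ^ 3 = 0 := by linear_combination h
        rcases mul_eq_zero.1 h3 with h4 | h4
        · exact h4
        · exact absurd (pow_eq_zero_iff (by norm_num) |>.1 h4) hk0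
      · have := dv p2 p3 h2 (by
          have h3 : k ^ 2 * (p2 + p3 * k) = 0 := by rw [h0, h1] at h; linear_combination h
          rcases mul_eq_zero.1 h3 with h4 | h4
          · exact absurd (pow_eq_zero_iff (by norm_num) |>.1 h4) hk0
          · exact h4)
        linarith
    · have := dv p1 (p2 + p3 * k) h1 (by
        have h3 : k * (p1 + (p2 + p3 * k) * k) = 0 := by rw [h0] at h; linear_combination h
        rcases mul_eq_zero.1 h3 with h4 | h4
        · exact absurd h4 hk0
        · exact h4)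
      linarith
  · have := dv p0 (p1 + p2 * k + p3 * k ^ 2) h0 (by linear_combination h)
    linarith

theorem caseA {s p k w : ℤ} (hp : 1 ≤ p) (hs : 1 ≤ s) (hΔ : s ^ 2 < 4 * p)
    (hE : p * w * (w + 1) - s * k * (k - 1) * w + k * (k - 1) ^ 2 * (k - 2) = 0) :
    k ≤ 8 * p := by
  by_contra hc
  push Not at hc
  have h1 : (2 * p * w + p - s * k * (k - 1)) ^ 2
      = k * (k - 1) ^ 2 * ((s ^ 2 - 4 * p) * k + 8 * p) - 2 * p * s * (k * (k - 1)) + p ^ 2 := by
    linear_combination 4 * p * hE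
  have h2 := sq_nonneg (2 * p * w + p - s * k * (k - 1))
  rw [h1] at h2
  have hk : 9 ≤ k := by linarith
  have h3 : (s ^ 2 - 4 * p) * k + 8 * p ≤ 0 := by
    have : (s ^ 2 - 4 * p) * k ≤ (-1) * k := mul_le_mul_of_nonneg_right (by linarith) (by linarith)
    linarith
  have h4 : k * (k - 1) ^ 2 * ((s ^ 2 - 4 * p) * k + 8 * p) ≤ 0 :=
    mul_nonpos_of_nonneg_of_nonpos (mul_nonneg (by linarith) (sq_nonneg _)) h3
  have h5 : p * 1 ≤ p * s := mul_le_mul_of_nonneg_left hs (by linarith)
  have h6 : p * p ≤ (p * s) * (k * (k - 1)) := by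
    have h7 : p ≤ k * (k - 1) := by nlinarith
    exact mul_le_mul (by linarith) h7 (by linarith) (by linarith)
  have h8 : 0 ≤ p * p := mul_nonneg (by linarith) (by linarith)
  have h9 : 0 < p * p := mul_pos (by linarith) (by linarith)
  have h10 : (p * s) * (k * (k - 1)) = p * s * (k * (k - 1)) := rfl
  linarith [h4, h6, h9, h2, sq p]

end Helper138QS
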