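import Pool.Agent.Helper138_QS.UDef

/-! For fixed `x, y` the block size is bounded. -/

namespace Helper138QS

theorem caseB {x y k l : ℤ} (hx : 2 ≤ x) (hxy : x < y) (hyk : y < k) (hl : 1 ≤ l)
    (hΔ : 4 * (x * y) < (x + y - 1) ^ 2) (hk1 : x + y + 1 ≤ k) (hk2 : 2 * (x * y) ≤ k)
    (h : AU x y k * l ^ 2 + BU x y k * l + CU x y k = 0) :
    l ≤ 2 * ((x + y - 1) ^ 3 + (x * y) ^ 2) := by
  have eA : AU x y k = (k - 1) * (((x + y - 1) ^ 2 - 4 * (x * y)) * k ^ 2 + 8 * (x * y) * k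
      - 2 * (x * y) * ((x + y - 1) + 2)) := by
    unfold AU; ring
  have eC : CU x y k = -((x * y) ^ 2 * (k - 2) * (k - x) * (k - y)) := rfl
  have eB : BU x y k = -((((x + y - 1) ^ 2 - 2 * (x * y)) * k - x * y * (x + y - 1 - 2))
    * ((x + y - 1) * k * (k - 1) - x * y)
  - 2 * (x * y) * (k - 2) * ((k - 1) * ((x + y - 1) * k - 2 * (x * y)))) := rfl
  have hp : 1 ≤ x * y := by nlinarith
  have hs : 4 ≤ x + y - 1 := by linarith
  have hCx : 0 ≤ (k - x) * (k - y) := mul_nonneg (by linarith) (by linarith)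
  have hCx2 : (k - x) * (k - y) ≤ k * k :=
    mul_le_mul (by linarith) (by linarith) (by linarith) (by linarith)
  have hC : -CU x y k ≤ (x * y) ^ 2 * k ^ 3 := by
    have h1 : (k - 2) * ((k - x) * (k - y)) ≤ k * (k * k) :=
      mul_le_mul (by linarith) hCx2 hCx (by linarith)
    have h2 := mul_le_mul_of_nonneg_left h1 (sq_nonneg (x * y))
    rw [eC]
    linarith
  have hks : x + y - 1 + 2 ≤ k := by linarith
  clear hk1
  generalize x + y - 1 = s at *
  generalize x * y = p at *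
  have hA : (k - 1) * k ^ 2 ≤ AU x y k := by
    rw [eA]
    refine mul_le_mul_of_nonneg_left ?_ (by linarith)
    have h1 : 1 * k ^ 2 ≤ (s ^ 2 - 4 * p) * k ^ 2 :=
      mul_le_mul_of_nonneg_right (by linarith) (sq_nonneg k)
    have h2 : p * (2 * (s + 2)) ≤ p * (8 * k) :=
      mul_le_mul_of_nonneg_left (by linarith) (by linarith)
    linarith
  have hskpos : 0 ≤ s * k := mul_nonneg (by linarith) (by linarith)
  have hsk1 : 1 * k ≤ s * k := mul_le_mul_of_nonneg_right (by linarith) (by linarith)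
  have hQ0 : 0 ≤ s * k * (k - 1) - p := by
    have : s * k * 1 ≤ s * k * (k - 1) := mul_le_mul_of_nonneg_left (by linarith) hskpos
    linarith
  have hQ1 : s * k * (k - 1) - p ≤ s * k ^ 2 := by
    have : s * k * (k - 1) = s * k ^ 2 - s * k := by ring
    linarith
  have hN : (s ^ 2 - 2 * p) * k - p * (s - 2) ≤ s ^ 2 * k := by
    have h1 : 0 ≤ 2 * p * k := mul_nonneg (by linarith) (by linarith)
    have h2 : 0 ≤ p * (s - 2) := mul_nonneg (by linarith) (by linarith)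
    linarith
  have hB : -BU x y k ≤ s ^ 3 * k ^ 3 := by
    have h1 : ((s ^ 2 - 2 * p) * k - p * (s - 2)) * (s * k * (k - 1) - p)
        ≤ (s ^ 2 * k) * (s * k * (k - 1) - p) := mul_le_mul_of_nonneg_right hN hQ0
    have h2 : (s ^ 2 * k) * (s * k * (k - 1) - p) ≤ (s ^ 2 * k) * (s * k ^ 2) :=
      mul_le_mul_of_nonneg_left hQ1 (mul_nonneg (sq_nonneg s) (by linarith))
    have h3 : 0 ≤ 2 * p * (k - 2) * ((k - 1) * (s * k - 2 * p)) := by
      refine mul_nonneg (mul_nonneg (by linarith) (by linarith)) (mul_nonneg (by linarith) ?_)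
      linarith
    rw [eB]
    linarith
  have hl2 : (k - 1) * k ^ 2 * l ^ 2 ≤ AU x y k * l ^ 2 :=
    mul_le_mul_of_nonneg_right hA (sq_nonneg l)
  have hBl : -BU x y k * l ≤ s ^ 3 * k ^ 3 * l := mul_le_mul_of_nonneg_right hB (by linarith)
  have hCl : p ^ 2 * k ^ 3 ≤ p ^ 2 * k ^ 3 * l := by
    have h0 : 0 ≤ p ^ 2 * k ^ 3 := mul_nonneg (sq_nonneg p) (pow_nonneg (by linarith) 3)
    have := mul_le_mul_of_nonneg_left hl h0
    linarith
  have h1 : (k ^ 2 * l) * ((k - 1) * l) ≤ (k ^ 2 * l) * ((s ^ 3 + p ^ 2) * k) := by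
    linarith
  have h2 : (k - 1) * l ≤ (s ^ 3 + p ^ 2) * k :=
    le_of_mul_le_mul_left h1 (mul_pos (pow_pos (by linarith) 2) (by linarith))
  have h3 : (s ^ 3 + p ^ 2) * k ≤ (s ^ 3 + p ^ 2) * (2 * (k - 1)) :=
    mul_le_mul_of_nonneg_left (by linarith)
      (add_nonneg (pow_nonneg (by linarith) 3) (sq_nonneg p))
  have h4 : (k - 1) * l ≤ (k - 1) * (2 * (s ^ 3 + p ^ 2)) := by linarith
  exact le_of_mul_le_mul_left h4 (by linarith)

end Helper138QS
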