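import Pool.Agent.Helper138_QS.UDef

/-! For fixed `x, y` the block size is bounded. -/

namespace Helper138QS

theorem caseC {x y k l t : ℤ} (ht : 2 ≤ t) (hyt : t + 1 ≤ y) (hyk : y < k) (hl : 1 ≤ l)
    (hs : x + y - 1 = 2 * t) (hp : x * y = t ^ 2)
    (h : AU x y k * l ^ 2 + BU x y k * l + CU x y k = 0) :
    l ≤ 10 * t ^ 6 + 2 * t ^ 4 + 2 * t ^ 2 + 2 * t := by
  have eA : AU x y k = (k - 1) * (((x + y - 1) ^ 2 - 4 * (x * y)) * k ^ 2 + 8 * (x * y) * k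
      - 2 * (x * y) * ((x + y - 1) + 2)) := by
    unfold AU; ring
  have eC : CU x y k = -((x * y) ^ 2 * (k - 2) * (k ^ 2 - ((x + y - 1) + 1) * k + x * y)) := by
    unfold CU; ring
  have eB : BU x y k = -((((x + y - 1) ^ 2 - 2 * (x * y)) * k - x * y * (x + y - 1 - 2))
    * ((x + y - 1) * k * (k - 1) - x * y)
  - 2 * (x * y) * (k - 2) * ((k - 1) * ((x + y - 1) * k - 2 * (x * y)))) := rfl
  rw [eA, eB, eC, hs, hp] at h
  have h1 : t ^ 2 * ((k - 1) * (2 * k - t - 1) * (16 * l ^ 2 - 24 * t * l + 3 * t ^ 2 * (t + 1)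
      - 2 * t ^ 2 * k) + 8 * t * ((2 * t - 3) * k - t ^ 2 + 3) * l
      - t ^ 2 * (t + 3) * (t - 1) * k + t ^ 2 * (5 * t ^ 2 - 6 * t - 3)) = 0 := by
    linear_combination 4 * h
  have h2 : (k - 1) * (2 * k - t - 1) * (2 * t ^ 2 * k
      - (16 * l ^ 2 - 24 * t * l + 3 * t ^ 2 * (t + 1)))
      = 8 * t * ((2 * t - 3) * k - t ^ 2 + 3) * l
      - t ^ 2 * (t + 3) * (t - 1) * k + t ^ 2 * (5 * t ^ 2 - 6 * t - 3) := by
    rcases mul_eq_zero.1 h1 with h3 | h3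
    · have : 0 < t ^ 2 := pow_pos (by linarith) 2
      omega
    · linear_combination -h3
  by_contra hc
  push Not at hc
  have ht2 : 4 ≤ t ^ 2 := by nlinarith
  have ht3 : t ^ 2 ≤ t ^ 4 := by nlinarith
  have ht6 : 0 ≤ t ^ 6 := by positivity
  have hk : t + 2 ≤ k := by linarith
  -- the right hand side is positive
  have hfac : k - 1 ≤ (2 * t - 3) * k - t ^ 2 + 3 := by
    have : 0 ≤ (t - 2) * (2 * k - t - 2) := mul_nonneg (by linarith) (by linarith)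
    linarith
  have hR1 : 8 * t * l * (k - 1) ≤ 8 * t * ((2 * t - 3) * k - t ^ 2 + 3) * l := by
    have := mul_le_mul_of_nonneg_left hfac (show 0 ≤ 8 * t * l by positivity)
    linarith
  have hl4 : t * (t + 3) * (t - 1) < 4 * l := by
    have h5 : t * (t + 3) * (t - 1) ≤ 2 * t ^ 4 + 2 * t ^ 2 := by
      have h6 : t ^ 3 ≤ t ^ 4 := by
        have := mul_le_mul_of_nonneg_left (show 1 ≤ t by linarith) (show 0 ≤ t ^ 3 by positivity)
        linarith [this]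
      nlinarith
    linarith
  have hRpos : 0 < 8 * t * ((2 * t - 3) * k - t ^ 2 + 3) * l
      - t ^ 2 * (t + 3) * (t - 1) * k + t ^ 2 * (5 * t ^ 2 - 6 * t - 3) := by
    have h5 : 0 < t ^ 2 * (5 * t ^ 2 - 6 * t - 3) := mul_pos (by linarith) (by nlinarith)
    have h6 : 0 ≤ t * (k - 1) * (2 * (4 * l - t * (t + 3) * (t - 1))) :=
      mul_nonneg (mul_nonneg (by linarith) (by linarith)) (by linarith)
    have h7 : 0 ≤ t ^ 2 * (t + 3) * (t - 1) * (k - 2) :=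
      mul_nonneg (mul_nonneg (mul_nonneg (by linarith) (by linarith)) (by linarith)) (by linarith)
    have h8 : t ^ 2 * (t + 3) * (t - 1) * (k - 2)
        = t ^ 2 * (t + 3) * (t - 1) * (2 * (k - 1)) - t ^ 2 * (t + 3) * (t - 1) * k := by ring
    have h9 : t * (k - 1) * (2 * (4 * l - t * (t + 3) * (t - 1)))
        = 8 * t * l * (k - 1) - t ^ 2 * (t + 3) * (t - 1) * (2 * (k - 1)) := by ring
    linarith
  have hfp : 0 < (k - 1) * (2 * k - t - 1) := mul_pos (by linarith) (by linarith)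
  have hE : 1 ≤ 2 * t ^ 2 * k - (16 * l ^ 2 - 24 * t * l + 3 * t ^ 2 * (t + 1)) := by
    rw [← h2] at hRpos
    exact (mul_pos_iff_of_pos_left hfp).1 hRpos
  have h10 : (k - 1) * (2 * k - t - 1) * 1 ≤ (k - 1) * (2 * k - t - 1) * (2 * t ^ 2 * k
      - (16 * l ^ 2 - 24 * t * l + 3 * t ^ 2 * (t + 1))) :=
    mul_le_mul_of_nonneg_left hE hfp.le
  have h11 : (k - 1) * k ≤ (k - 1) * (2 * k - t - 1) :=
    mul_le_mul_of_nonneg_left (by linarith) (by linarith)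
  have h12 : 8 * t * ((2 * t - 3) * k - t ^ 2 + 3) * l ≤ 16 * t ^ 2 * l * k := by
    have h13 : (2 * t - 3) * k - t ^ 2 + 3 ≤ 2 * t * k := by nlinarith
    have := mul_le_mul_of_nonneg_left h13 (show 0 ≤ 8 * t * l by positivity)
    linarith
  have h14 : 0 ≤ t ^ 2 * (t + 3) * (t - 1) * k :=
    mul_nonneg (mul_nonneg (mul_nonneg (by linarith) (by linarith)) (by linarith)) (by linarith)
  have h15 : t ^ 2 * (5 * t ^ 2 - 6 * t - 3) ≤ 5 * t ^ 4 * k := by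
    have h16 : t ^ 2 * (5 * t ^ 2 - 6 * t - 3) ≤ 5 * t ^ 4 := by nlinarith
    have h17 : 5 * t ^ 4 * 1 ≤ 5 * t ^ 4 * k :=
      mul_le_mul_of_nonneg_left (by linarith) (by positivity)
    linarith
  have h18 : (k - 1) * k ≤ (16 * t ^ 2 * l + 5 * t ^ 4) * k := by
    rw [h2] at h10
    linarith
  have h19 : k - 1 ≤ 16 * t ^ 2 * l + 5 * t ^ 4 := le_of_mul_le_mul_right h18 (by linarith)
  have h20 : 2 * t ^ 2 * k ≤ 2 * t ^ 2 * (16 * t ^ 2 * l + 5 * t ^ 4 + 1) :=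
    mul_le_mul_of_nonneg_left (by linarith) (by positivity)
  have h21 : l * (16 * l - 32 * t ^ 4 - 24 * t) ≤ 10 * t ^ 6 + 2 * t ^ 2 := by
    have : 0 ≤ 3 * t ^ 2 * (t + 1) := by positivity
    have e : 2 * t ^ 2 * (16 * t ^ 2 * l + 5 * t ^ 4 + 1)
        = 32 * t ^ 4 * l + 10 * t ^ 6 + 2 * t ^ 2 := by ring
    rw [e] at h20
    linarith
  have h22 : 1 ≤ 16 * l - 32 * t ^ 4 - 24 * t := by linarith
  have h23 : l * 1 ≤ l * (16 * l - 32 * t ^ 4 - 24 * t) :=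
    mul_le_mul_of_nonneg_left h22 (by linarith)
  have h24 : 0 ≤ 2 * t ^ 4 := by positivity
  linarith

end Helper138QS
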