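import Pool.Agent.Helper138_QS.FinA
import Pool.Agent.Helper138_QS.FinB
import Pool.Agent.Helper138_QS.FinC

namespace Helper138QS

/-- for given `l`, the block size is bounded -/
theorem bd_of_l {x y l : ℤ} (hx : 2 ≤ x) (hxy : x < y) (hl : 1 ≤ l) :
    ∃ K : ℤ, 0 ≤ K ∧ ∀ k : ℤ, 1 ≤ k → AU x y k * l ^ 2 + BU x y k * l + CU x y k = 0 → k ≤ K := by
  obtain ⟨p0, p1, p2, p3, hp⟩ : ∃ p0 p1 p2 p3 : ℤ, ∀ k : ℤ,
      AU x y k * l ^ 2 + BU x y k * l + CU x y k = p0 + p1 * k + p2 * k ^ 2 + p3 * k ^ 3 := by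
    refine ⟨(2 * (x * y) * ((x + y - 1) + 2)) * l ^ 2
        - (x * y * ((x + y - 1) - 2) * (x * y) + 8 * (x * y) ^ 2) * l + 2 * (x * y) ^ 3,
      (-(8 * (x * y) + 2 * (x * y) * ((x + y - 1) + 2))) * l ^ 2
        - ((x * y * ((x + y - 1) - 2) * (x + y - 1) - ((x + y - 1) ^ 2 - 2 * (x * y)) * (x * y))
          - 2 * (x * y) * (2 * (x + y - 1) + 6 * (x * y))) * l
        - (x * y) ^ 2 * (x * y + 2 * (x + y - 1) + 2),
      (8 * (x * y) - ((x + y - 1) ^ 2 - 4 * (x * y))) * l ^ 2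
        - (-(((x + y - 1) ^ 2 - 2 * (x * y)) * (x + y - 1) + x * y * ((x + y - 1) - 2) * (x + y - 1))
          + 2 * (x * y) * (3 * (x + y - 1) + 2 * (x * y))) * l
        + (x * y) ^ 2 * ((x + y - 1) + 3),
      ((x + y - 1) ^ 2 - 4 * (x * y)) * l ^ 2
        - (((x + y - 1) ^ 2 - 2 * (x * y)) * (x + y - 1) - 2 * (x * y) * (x + y - 1)) * l
        - (x * y) ^ 2, ?_⟩
    intro k
    unfold AU BU CU
    ring
  refine ⟨|p0| + |p1| + |p2| + |p3|, by positivity, fun k hk h => ?_⟩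
  rw [hp k] at h
  refine cubic_bd hk h ?_
  rintro ⟨rfl, rfl, rfl, rfl⟩
  have e0 := hp 0
  have e1 := hp 1
  have f1 : x * y * (x - 1) * (y - 1) * (x * y - (x + y - 1) * l) = 0 := by
    unfold AU BU CU at e1
    linear_combination e1
  have f0 : x * y * (2 * ((x + y - 1) + 2) * l ^ 2 - x * y * ((x + y - 1) + 6) * l
      + 2 * (x * y) ^ 2) = 0 := by
    unfold AU BU CU at e0
    linear_combination e0
  have hpos : 0 < x * y := mul_pos (by linarith) (by linarith)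
  have g1 : x * y = (x + y - 1) * l := by
    rcases mul_eq_zero.1 f1 with h1 | h1
    · exfalso
      have : 0 < x * y * (x - 1) * (y - 1) := mul_pos (mul_pos hpos (by linarith)) (by linarith)
      omega
    · linarith
  rw [g1] at f0
  have hs : 4 ≤ x + y - 1 := by linarith
  generalize x + y - 1 = s at *
  have g2 : (s * l ^ 3) * (s - 2) ^ 2 = 0 := by linear_combination f0
  have g3 : 0 < (s * l ^ 3) * (s - 2) ^ 2 :=
    mul_pos (mul_pos (by linarith) (pow_pos (by linarith) 3)) (pow_pos (by linarith) 2)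
  linarith

/-- for given `x < y`, the block size is bounded -/
theorem bd_k {x y : ℤ} (hx : 2 ≤ x) (hxy : x < y) :
    ∃ K : ℤ, 0 ≤ K ∧ ∀ k l w : ℤ, y < k → 1 ≤ l →
      AU x y k * l ^ 2 + BU x y k * l + CU x y k = 0 →
      x * y * w * (w + 1) - (x + y - 1) * k * (k - 1) * w + k * (k - 1) ^ 2 * (k - 2) = 0 →
      k ≤ K := by
  have hp : 1 ≤ x * y := by nlinarith
  -- it is enough to bound `l` for large `k`
  have red : ∀ K₀ L : ℤ, 0 ≤ K₀ → (∀ k l : ℤ, y < k → 1 ≤ l → K₀ < k →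
      AU x y k * l ^ 2 + BU x y k * l + CU x y k = 0 → l ≤ L) →
      ∃ K : ℤ, 0 ≤ K ∧ ∀ k l w : ℤ, y < k → 1 ≤ l →
      AU x y k * l ^ 2 + BU x y k * l + CU x y k = 0 →
      x * y * w * (w + 1) - (x + y - 1) * k * (k - 1) * w + k * (k - 1) ^ 2 * (k - 2) = 0 →
      k ≤ K := by
    intro K₀ L hK₀ hL
    have hch : ∀ l : ℤ, ∃ K : ℤ, 0 ≤ K ∧ (1 ≤ l → ∀ k : ℤ, 1 ≤ k →
        AU x y k * l ^ 2 + BU x y k * l + CU x y k = 0 → k ≤ K) := by
      intro l
      by_cases hl : 1 ≤ l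
      · obtain ⟨K, h0, hK⟩ := bd_of_l hx hxy hl
        exact ⟨K, h0, fun _ => hK⟩
      · exact ⟨0, le_refl _, fun h => absurd h hl⟩
    choose f hf0 hf using hch
    refine ⟨K₀ + ∑ l ∈ Finset.Icc 1 L, f l,
      add_nonneg hK₀ (Finset.sum_nonneg fun l _ => hf0 l), fun k l w hk hl h _ => ?_⟩
    rcases le_or_gt k K₀ with h1 | h1
    · have := Finset.sum_nonneg (s := Finset.Icc 1 L) fun l _ => hf0 l
      linarith
    · have h2 := hL k l hk hl h1 h
      have h3 := hf l hl k (by linarith) h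
      have h4 := Finset.single_le_sum (f := f) (fun l _ => hf0 l) (Finset.mem_Icc.2 ⟨hl, h2⟩)
      linarith
  rcases lt_trichotomy ((x + y - 1) ^ 2) (4 * (x * y)) with hΔ | hΔ | hΔ
  · exact ⟨8 * (x * y), by linarith, fun k l w _ _ _ hE => caseA hp (by linarith) hΔ hE⟩
  · obtain ⟨t, ht⟩ : ∃ t, x + y - 1 = 2 * t := by
      have h1 : Even ((x + y - 1) ^ 2) := ⟨2 * (x * y), by linarith⟩
      rw [Int.even_pow] at h1
      obtain ⟨t, ht⟩ := h1.1
      exact ⟨t, by linarith⟩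
    have hpt : x * y = t ^ 2 := by
      rw [ht] at hΔ
      linarith
    refine red 0 (10 * t ^ 6 + 2 * t ^ 4 + 2 * t ^ 2 + 2 * t) (le_refl _) fun k l hk hl _ h => ?_
    exact caseC (by omega) (by omega) hk hl ht hpt h
  · refine red (x + y + 1 + 2 * (x * y)) (2 * ((x + y - 1) ^ 3 + (x * y) ^ 2)) (by linarith)
      fun k l hk hl hK h => ?_
    exact caseB hx hxy hk hl hΔ (by linarith) (by linarith) h

end Helper138QS
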