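import Pool.Agent.Helper138_QS.FinD
import Pool.Agent.Helper138_QS.ArithU
import Pool.Agent.Helper138_QS.Bound
import Pool.Agent.Helper138_QS.Count

namespace Helper138QS.X

open Finset Helper138QS

/-- the equation for the number of points -/
theorem QS.eqw {V : Type*} [DecidableEq V] [Fintype V] {𝓑 : Finset (Finset V)} {k l x y : ℕ}
    (h : QS 𝓑 k l x y) : ∃ w : ℤ, 0 ≤ w ∧ (Fintype.card V : ℤ) = w + 2 ∧
      (x : ℤ) * y * w * (w + 1) - ((x : ℤ) + y - 1) * k * ((k : ℤ) - 1) * w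
        + (k : ℤ) * ((k : ℤ) - 1) ^ 2 * ((k : ℤ) - 2) = 0 := by
  obtain ⟨s, r, w, hs1, hw, hs, hr, ha, hb⟩ := h.eqs
  have hl := h.l_pos
  have hkv := h.hkv
  have h3k := h.h3k
  refine ⟨w, by omega, hw, ?_⟩
  have h1 : (l : ℤ) * ((x : ℤ) * y * w * (w + 1) - ((x : ℤ) + y - 1) * k * ((k : ℤ) - 1) * w
        + (k : ℤ) * ((k : ℤ) - 1) ^ 2 * ((k : ℤ) - 2)) = 0 := by
    linear_combination ((k : ℤ) - 1) * ((k : ℤ) - 2) * hb
      - (x : ℤ) * y * ((k : ℤ) - 2) * hr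
      + (((x : ℤ) + y - 1) * k * ((k : ℤ) - 1) - (x : ℤ) * y * (w + 1)) * hs
  rcases mul_eq_zero.1 h1 with h2 | h2
  · exfalso
    have : (1 : ℤ) ≤ l := by exact_mod_cast hl
    omega
  · exact h2

universe u

/-- for given `x < y` with `x ≥ 2` the number of points is bounded -/
theorem bd_v {x y : ℕ} (hx : 2 ≤ x) (hxy : x < y) :
    ∃ N : ℕ, ∀ {V : Type u} [DecidableEq V] [Fintype V] {𝓑 : Finset (Finset V)} {k l : ℕ},
      QS 𝓑 k l x y → Fintype.card V ≤ N := by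
  obtain ⟨K, hK0, hK⟩ := bd_k (x := x) (y := y) (by exact_mod_cast hx) (by exact_mod_cast hxy)
  refine ⟨(((x : ℤ) + y - 1) * K ^ 2 + 2).toNat, ?_⟩
  intro V _ _ 𝓑 k l h
  obtain ⟨w, hw0, hw, hE⟩ := h.eqw
  have hyk := h.y_lt
  have hl := h.l_pos
  have h3k := h.h3k
  have hk := hK k l w (by exact_mod_cast hyk) (by exact_mod_cast hl) (h.quad (by omega)) hE
  have hp : (1 : ℤ) ≤ (x : ℤ) * y := by
    have h1 : (1 : ℤ) ≤ x := by exact_mod_cast (by omega : 1 ≤ x)
    have h2 : (1 : ℤ) ≤ y := by exact_mod_cast (by omega : 1 ≤ y)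
    nlinarith
  have hs : (1 : ℤ) ≤ (x : ℤ) + y - 1 := by
    have h1 : (1 : ℤ) ≤ x := by exact_mod_cast (by omega : 1 ≤ x)
    have h2 : (1 : ℤ) ≤ y := by exact_mod_cast (by omega : 1 ≤ y)
    linarith
  have hk3 : (3 : ℤ) ≤ k := by exact_mod_cast h3k
  have hwb : w ≤ ((x : ℤ) + y - 1) * K ^ 2 := by
    by_contra hc
    push Not at hc
    have h1 : ((x : ℤ) + y - 1) * (k * ((k : ℤ) - 1)) ≤ ((x : ℤ) + y - 1) * K ^ 2 := by
      refine mul_le_mul_of_nonneg_left ?_ (by linarith)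
      have : (k : ℤ) * ((k : ℤ) - 1) ≤ K * K := mul_le_mul hk (by linarith) (by linarith) hK0
      linarith [sq K]
    have h2 : ((x : ℤ) + y - 1) * (k * ((k : ℤ) - 1)) < w := by linarith
    have hwpos : 0 < w := by
      have : 0 ≤ ((x : ℤ) + y - 1) * K ^ 2 := mul_nonneg (by linarith) (sq_nonneg K)
      linarith
    have h3 : w * (((x : ℤ) + y - 1) * (k * ((k : ℤ) - 1))) < w * w :=
      mul_lt_mul_of_pos_left h2 hwpos
    have h4 : 1 * (w * (w + 1)) ≤ ((x : ℤ) * y) * (w * (w + 1)) :=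
      mul_le_mul_of_nonneg_right hp (mul_nonneg hw0 (by linarith))
    have h5 : 0 ≤ (k : ℤ) * ((k : ℤ) - 1) ^ 2 * ((k : ℤ) - 2) :=
      mul_nonneg (mul_nonneg (by linarith) (sq_nonneg _)) (by linarith)
    linarith
  have h9 : (Fintype.card V : ℤ) ≤ ((x : ℤ) + y - 1) * K ^ 2 + 2 := by linarith
  have h10 : 0 ≤ ((x : ℤ) + y - 1) * K ^ 2 + 2 := by linarith
  omega

/-- for given `x ≥ 1` the number of points is bounded -/
theorem bd_all {x : ℕ} (hx : 1 ≤ x) :
    ∃ N : ℕ, ∀ {V : Type u} [DecidableEq V] [Fintype V] {𝓑 : Finset (Finset V)} {k l y : ℕ},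
      QS 𝓑 k l x y → k + 3 < Fintype.card V → Fintype.card V ≤ N := by
  rcases Nat.lt_or_ge x 2 with h1 | h2
  · have hx1 : x = 1 := by omega
    subst hx1
    refine ⟨23, ?_⟩
    intro V _ _ 𝓑 k l y h hv
    have h' : Helper138QS.QS 𝓑 k l y := ⟨h.hk, h.h3, h.hI, h.hx, h.hy, h.hxy, h.h3k, h.hkv⟩
    rcases h'.params with h3 | h3 | h3 <;> omega
  · have hch : ∀ y : ℕ, ∃ N : ℕ, x < y → ∀ {V : Type u} [DecidableEq V] [Fintype V]
        {𝓑 : Finset (Finset V)} {k l : ℕ}, QS 𝓑 k l x y → Fintype.card V ≤ N := by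
      intro y
      by_cases hxy : x < y
      · obtain ⟨N, hN⟩ := bd_v.{u} h2 hxy
        exact ⟨N, fun _ => hN⟩
      · exact ⟨0, fun h => absurd h hxy⟩
    choose f hf using hch
    refine ⟨∑ y ∈ Finset.range (x + x ^ 2 * (x - 1)), f y, ?_⟩
    intro V _ _ 𝓑 k l y h hv
    have hxy := h.hxy
    rcases Nat.lt_or_ge x 3 with h3 | h3
    · have hx2 : x = 2 := by omega
      subst hx2
      exact (h.x_ne_two hv).elim
    · have hy : y < x + x ^ 2 * (x - 1) := by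
        by_contra hcon
        push Not at hcon
        have hquad := h.quad (by omega)
        obtain ⟨m, hm, hkm⟩ := h.mult (by omega)
        have hl := h.l_pos
        have hz : ((x : ℤ) - 1) * (x : ℤ) ^ 2 ≤ (y : ℤ) - x := by
          zify [show 1 ≤ x by omega] at hcon
          linarith
        refine Helper138QS.no_large (x := x) (z := (y : ℤ) - x) (m := m) (l := l)
          (by exact_mod_cast h3) hm hz (by exact_mod_cast hl) ?_
        rw [show (x : ℤ) + ((y : ℤ) - x) = y by ring, ← hkm]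
        exact hquad
      exact (hf y hxy h).trans
        (Finset.single_le_sum (f := f) (fun _ _ => Nat.zero_le _) (Finset.mem_range.2 hy))

end Helper138QS.X
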