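import Pool.Agent.Helper138_QS.CountX
import Pool.Agent.Helper138_QS.Arith2

/-! No nontrivial quasi-symmetric 3-design has smaller intersection number 2. -/

namespace Helper138QS.X

open Finset Helper138QS

variable {V : Type*} [DecidableEq V] [Fintype V] {𝓑 : Finset (Finset V)} {k l x y : ℕ}

theorem QS.l_pos (h : QS 𝓑 k l x y) : 1 ≤ l := by
  obtain ⟨B, hB, -⟩ := h.hx
  obtain ⟨T, hT, hT3⟩ := Finset.exists_subset_card_eq (show 3 ≤ B.card by
    rw [h.hk B hB]; exact h.h3k)
  rw [← h.h3 T hT3]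
  exact Finset.card_pos.2 ⟨B, by simp [hB, hT]⟩

theorem QS.y_lt (h : QS 𝓑 k l x y) : y < k := by
  obtain ⟨B, hB, B', hB', hne, hc⟩ := h.hy
  by_contra hcon
  apply hne
  have h1 : B ∩ B' = B := Finset.eq_of_subset_of_card_le Finset.inter_subset_left
    (by rw [h.hk B hB, hc]; omega)
  have h2 : B ∩ B' = B' := Finset.eq_of_subset_of_card_le Finset.inter_subset_right
    (by rw [h.hk B' hB', hc]; omega)
  rw [← h1, h2]

/-- Integer form of all the equations. -/
theorem QS.eqs (h : QS 𝓑 k l x y) : ∃ s r w : ℤ, 1 ≤ s ∧ (Fintype.card V : ℤ) = w + 2 ∧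
    s * ((k : ℤ) - 2) = w * l ∧ r * ((k : ℤ) - 1) = (w + 1) * s ∧
    ((k : ℤ) - 1) * (k - 2) * (l - 1) - (x + y - 3) * (k - 1) * (s - 1)
      + (x - 1) * (y - 1) * (r - 1) = 0 ∧
    (k : ℤ) * (k - 1) * l - (x + y - 1) * k * s + x * y * r = 0 := by
  have h3k := h.h3k
  have hkv := h.hkv
  have hl := h.l_pos
  obtain ⟨a, b, hab⟩ : ∃ a b : V, a ≠ b :=
    Fintype.exists_pair_of_one_lt_card (show 1 < Fintype.card V by omega)
  have hs := h.two hab
  have hr := h.one a hs
  have ha := h.eqa hs hr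
  have hb := h.eqb hs hr
  generalize (𝓑.filter (fun B => a ∈ B ∧ b ∈ B)).card = s at hs hr ha hb
  generalize (𝓑.filter (fun B => a ∈ B)).card = r at hr ha hb
  have hs1 : 1 ≤ s := by
    rcases Nat.eq_zero_or_pos s with h0 | h0
    · subst h0
      rw [Nat.zero_mul] at hs
      have := Nat.mul_pos (show 0 < Fintype.card V - 2 by omega) hl
      omega
    · exact h0
  have hr1 : 1 ≤ r := by
    rcases Nat.eq_zero_or_pos r with h0 | h0
    · subst h0
      rw [Nat.zero_mul] at hr
      have := Nat.mul_pos (show 0 < Fintype.card V - 1 by omega) hs1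
      omega
    · exact h0
  refine ⟨s, r, (Fintype.card V : ℤ) - 2, by exact_mod_cast hs1, by ring, ?_, ?_, ?_, ?_⟩
  · zify [show 2 ≤ k by omega, show 2 ≤ Fintype.card V by omega] at hs
    exact hs
  · zify [show 1 ≤ k by omega, show 1 ≤ Fintype.card V by omega] at hr
    linear_combination hr
  · zify [show 1 ≤ k by omega, show 2 ≤ k by omega, show 1 ≤ r by omega, show 1 ≤ s by omega,
      show 1 ≤ l by omega] at ha
    linear_combination ha
  · zify [show 1 ≤ k by omega] at hb
    linear_combination hb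

theorem QS.params2 (h : QS 𝓑 k l 2 y) (hv : k + 3 < Fintype.card V) :
    k = 7 ∧ y = 4 ∧ l = 25 ∧ Fintype.card V = 16 := by
  obtain ⟨s, r, w, hs1, hw, hs, hr, ha, hb⟩ := h.eqs
  have hyk := h.y_lt
  have hl := h.l_pos
  have hxy := h.hxy
  have hv' : (k : ℤ) + 2 ≤ w := by omega
  push_cast at ha hb
  generalize hK : (k : ℤ) = K at *
  generalize hY : (y : ℤ) = Y at *
  generalize hL : (l : ℤ) = L at *
  have hy3 : 3 ≤ Y := by omega
  have hYK : Y + 1 ≤ K := by omega
  have hL1 : 1 ≤ L := by omega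
  have eL : (Y - 1) * ((Y - 1) * K - 2 * Y) * s
      = (K - 1) * ((Y + 1) * K - 4 * Y) * L - 2 * Y * (K - 2) * (K - Y) := by
    linear_combination -2 * Y * ha + (Y - 1) * hb
  have eQ : K * (K - 1) ^ 2 * L ^ 2 - ((Y + 1) * K * (K - 1) - 2 * Y) * L * s
      + 2 * Y * (K - 2) * s ^ 2 = 0 := by
    linear_combination L * (K - 1) * hb - 2 * Y * L * hr + 2 * Y * s * hs
  have eG : 2 * Y * (K - 2) * (K - Y) * (A2 K Y * L ^ 2 + B2 K Y * L + C2 K Y) = 0 := by
    unfold A2 B2 C2
    linear_combination (-((Y - 1) * ((Y - 1) * K - 2 * Y)) ^ 2) * eQ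
      + (-((Y + 1) * K * (K - 1) - 2 * Y) * L * ((Y - 1) * ((Y - 1) * K - 2 * Y))
        + 2 * Y * (K - 2) * (((K - 1) * ((Y + 1) * K - 4 * Y) * L - 2 * Y * (K - 2) * (K - Y))
          + (Y - 1) * ((Y - 1) * K - 2 * Y) * s)) * eL
  have hG : A2 K Y * L ^ 2 + B2 K Y * L + C2 K Y = 0 := by
    rcases mul_eq_zero.1 eG with h1 | h1
    · have : 0 < 2 * Y * (K - 2) * (K - Y) :=
        mul_pos (mul_pos (by linarith) (by linarith)) (by linarith)
      omega
    · exact h1
  rcases eq_or_lt_of_le hYK with h1 | h1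
  · exfalso
    subst h1
    have e1 : Y * (Y - 1) * ((L - (Y - 1)) * ((Y ^ 3 - 3 * Y ^ 2 - Y - 1) * L + 4 * Y)) = 0 := by
      unfold A2 B2 C2 at hG
      linear_combination hG
    have e2 : (L - (Y - 1)) * ((Y ^ 3 - 3 * Y ^ 2 - Y - 1) * L + 4 * Y) = 0 := by
      rcases mul_eq_zero.1 e1 with h2 | h2
      · have : 0 < Y * (Y - 1) := mul_pos (by linarith) (by linarith)
        omega
      · exact h2
    rcases eq_or_lt_of_le hy3 with h2 | h2
    · rw [← h2] at e2 eL hs hv'
      have e3 : (L - 2) * (L - 3) = 0 := by linarith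
      rcases mul_eq_zero.1 e3 with h4 | h4
      · have h5 : L = 2 := by linarith
        subst h5
        have h6 : s = 3 := by linarith
        subst h6
        linarith
      · have h5 : L = 3 := by linarith
        subst h5
        have h6 : s = 6 := by linarith
        subst h6
        linarith
    · have e3 : 0 < (Y ^ 3 - 3 * Y ^ 2 - Y - 1) * L + 4 * Y := by
        have : 0 < Y ^ 3 - 3 * Y ^ 2 - Y - 1 := by
          obtain ⟨t, ht⟩ := Int.le.dest (show 4 ≤ Y from h2)
          rw [← ht]
          ring_nf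
          positivity
        have := mul_pos this (show 0 < L by linarith)
        linarith
      have e4 : L = Y - 1 := by
        rcases mul_eq_zero.1 e2 with h4 | h4
        · linarith
        · omega
      subst e4
      have e5 : (Y - 1) * ((Y ^ 2 - 2 * Y - 1) * (s - Y)) = 0 := by linear_combination eL
      have e6 : s = Y := by
        rcases mul_eq_zero.1 e5 with h4 | h4
        · omega
        · rcases mul_eq_zero.1 h4 with h5 | h5
          · have : 0 < Y ^ 2 - 2 * Y - 1 := by nlinarith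
            omega
          · linarith
      subst e6
      have e7 : (s - 1) * (s - w) = 0 := by linear_combination hs
      rcases mul_eq_zero.1 e7 with h4 | h4 <;> omega
  · obtain ⟨h2, h3, h4⟩ := quad2 hy3 (by omega) hL1 hG
    subst h2
    subst h3
    subst h4
    have h5 : s = 70 := by linarith
    subst h5
    have h6 : w = 14 := by linarith
    subst h6
    omega

/-- Blocks through four points, when `y = 4`. -/
theorem no16 (h : QS 𝓑 7 25 2 4) (hv : Fintype.card V = 16) : False := by
  obtain ⟨B₀, hB₀, -⟩ := h.hx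
  obtain ⟨T, -, hT3⟩ := Finset.exists_subset_card_eq (show 3 ≤ B₀.card by
    rw [h.hk B₀ hB₀]; norm_num)
  have hd := dcount1 (𝓑.filter (fun B => T ⊆ B)) (univ \ T)
  have hL : ∀ B ∈ 𝓑.filter (fun B => T ⊆ B), (B ∩ (univ \ T)).card = 4 := by
    intro B hB
    rw [Finset.mem_filter] at hB
    have : B ∩ (univ \ T) = B \ T := by ext z; simp
    rw [this, Finset.card_sdiff_of_subset hB.2, h.hk B hB.1, hT3]
  have hR : ∀ p ∈ univ \ T, ((𝓑.filter (fun B => T ⊆ B)).filter (fun B => p ∈ B)).card ≤ 4 := by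
    intro p hp
    simp only [Finset.mem_sdiff, Finset.mem_univ, true_and] at hp
    set 𝓢 := (𝓑.filter (fun B => T ⊆ B)).filter (fun B => p ∈ B) with h𝓢
    have hQ : (insert p T).card = 4 := by rw [Finset.card_insert_of_notMem hp, hT3]
    have hin : ∀ B ∈ 𝓢, B ∈ 𝓑 ∧ insert p T ⊆ B := by
      intro B hB
      rw [h𝓢, Finset.mem_filter, Finset.mem_filter] at hB
      exact ⟨hB.1.1, Finset.insert_subset hB.2 hB.1.2⟩
    have h1 : (𝓢.biUnion (fun B => B \ insert p T)).card = 3 * 𝓢.card := by
      rw [Finset.card_biUnion, Finset.sum_congr rfl (g := fun _ => 3), Finset.sum_const,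
        smul_eq_mul, mul_comm]
      · intro B hB
        obtain ⟨h2, h3⟩ := hin B hB
        rw [Finset.card_sdiff_of_subset h3, h.hk B h2, hQ]
      · intro B hB B' hB' hne
        obtain ⟨h2, h3⟩ := hin B hB
        obtain ⟨h2', h3'⟩ := hin B' hB'
        have h4 := Finset.card_le_card (Finset.subset_inter h3 h3')
        have h5 : (B ∩ B').card = 4 := by
          rcases h.hI B h2 B' h2' hne with h6 | h6 <;> omega
        have h6 : insert p T = B ∩ B' :=
          Finset.eq_of_subset_of_card_le (Finset.subset_inter h3 h3') (by omega)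
        rw [Function.onFun, Finset.disjoint_left]
        intro z hz hz'
        rw [Finset.mem_sdiff] at hz hz'
        apply hz.2
        rw [h6]
        exact Finset.mem_inter.2 ⟨hz.1, hz'.1⟩
    have h2 : 𝓢.biUnion (fun B => B \ insert p T) ⊆ univ \ insert p T := by
      intro z hz
      rw [Finset.mem_biUnion] at hz
      obtain ⟨B, _, hz⟩ := hz
      rw [Finset.mem_sdiff] at hz ⊢
      exact ⟨Finset.mem_univ _, hz.2⟩
    have h3 := Finset.card_le_card h2
    rw [h1, Finset.card_sdiff_of_subset (Finset.subset_univ _), Finset.card_univ, hv, hQ] at h3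
    omega
  rw [Finset.sum_congr rfl hL, Finset.sum_const, smul_eq_mul, h.h3 T hT3] at hd
  have h5 := Finset.sum_le_sum hR
  rw [← hd, Finset.sum_const, smul_eq_mul, Finset.card_sdiff_of_subset (Finset.subset_univ _),
    Finset.card_univ, hv, hT3] at h5
  omega

theorem QS.x_ne_two (h : QS 𝓑 k l 2 y) (hv : k + 3 < Fintype.card V) : False := by
  obtain ⟨rfl, rfl, rfl, h4⟩ := h.params2 hv
  exact no16 h h4

end Helper138QS.X
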